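import Pool.Agent.Q40.GV.Dens

set_option autoImplicit false
set_option linter.style.haveILetI false
set_option linter.unusedVariables false

universe u

namespace Pool.Agent.Q40.GV

open IsLocalRing Polynomial Pool.Agent.TH188.QS Pool.Agent.W418.LU2

variable {K : Type u} [Field K]

/-- Zariski's lemma: elements of a maximal ideal over a local ring. -/
theorem alg_of_max {O C : Subring K} (hOC : O ≤ C) {T : Set K} (hT : T.Finite)
    (hC : C = Subring.closure ((O : Set K) ∪ T)) (M : Ideal C) [hM : M.IsMaximal]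
    (hmM : ∀ a ∈ O, a ≠ 0 → a⁻¹ ∉ O → ∃ h : a ∈ C, (⟨a, h⟩ : C) ∈ M) (x : C) :
    ∃ P : O[X], P.Monic ∧ P.eval₂ (Subring.inclusion hOC) x ∈ M := by
  classical
  let ι : O →+* C := Subring.inclusion hOC
  have hft : ι.FiniteType := by
    letI : Algebra O C := ι.toAlgebra
    have hTf' : {c : C | (c : K) ∈ T}.Finite := hT.preimage (Subtype.val_injective.injOn)
    have h1 : ∀ c ∈ Subring.closure ((O : Set K) ∪ T), ∀ hc : c ∈ C,
        (⟨c, hc⟩ : C) ∈ Algebra.adjoin O {c : C | (c : K) ∈ T} := by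
      intro c hc'
      induction hc' using Subring.closure_induction with
      | mem x hx =>
        intro hc
        rcases hx with hx | hx
        · exact Subalgebra.algebraMap_mem _ (⟨x, hx⟩ : O)
        · exact Algebra.subset_adjoin hx
      | zero => intro hc; exact Subalgebra.zero_mem _
      | one => intro hc; exact Subalgebra.one_mem _
      | add a b ha hb iha ihb =>
        intro hc
        rw [← hC] at ha hb
        exact Subalgebra.add_mem _ (iha ha) (ihb hb)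
      | neg a ha iha =>
        intro hc
        rw [← hC] at ha
        exact Subalgebra.neg_mem _ (iha ha)
      | mul a b ha hb iha ihb =>
        intro hc
        rw [← hC] at ha hb
        exact Subalgebra.mul_mem _ (iha ha) (ihb hb)
    have hfg : (⊤ : Subalgebra O C).FG := by
      refine Subalgebra.fg_def.2 ⟨_, hTf', ?_⟩
      rw [eq_top_iff]
      rintro ⟨c, hc⟩ -
      exact h1 c (hC ▸ hc) hc
    exact ⟨hfg⟩
  letI : Field (C ⧸ M) := Ideal.Quotient.field M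
  let m : Ideal O := M.comap ι
  have hmax : m.IsMaximal := by
    refine Ideal.isMaximal_iff.2 ⟨fun h => ?_, fun J a hJ haJ haM => ?_⟩
    · have h1 : (1 : C) ∈ M := by
        have h2 : ι 1 ∈ M := h
        rwa [map_one] at h2
      exact (Ideal.ne_top_iff_one M).1 hM.ne_top h1
    · have ha0 : (a : K) ≠ 0 := by
        intro h0
        apply haJ
        have h1 : a = 0 := Subtype.ext h0
        rw [h1]
        exact m.zero_mem
      have hinv : (a : K)⁻¹ ∈ O := by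
        by_contra h2
        obtain ⟨h, h3⟩ := hmM a a.2 ha0 h2
        exact haJ h3
      have h3 := J.mul_mem_left ⟨_, hinv⟩ haM
      have h4 : (⟨_, hinv⟩ : O) * a = 1 := Subtype.ext (inv_mul_cancel₀ ha0)
      rwa [h4] at h3
  letI : Field (O ⧸ m) := Ideal.Quotient.field m
  let ψ : O ⧸ m →+* C ⧸ M := Ideal.quotientMap M ι le_rfl
  have hψ : ψ.FiniteType := by
    refine RingHom.FiniteType.of_comp_finiteType (f := Ideal.Quotient.mk m) ?_
    have h1 : ψ.comp (Ideal.Quotient.mk m) = (Ideal.Quotient.mk M).comp ι := by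
      ext a; rfl
    rw [h1]
    exact (RingHom.FiniteType.of_surjective _ Ideal.Quotient.mk_surjective).comp hft
  letI : Algebra (O ⧸ m) (C ⧸ M) := ψ.toAlgebra
  haveI : Algebra.FiniteType (O ⧸ m) (C ⧸ M) := hψ
  haveI : Module.Finite (O ⧸ m) (C ⧸ M) := finite_of_finite_type_of_isJacobsonRing _ _
  obtain ⟨P', hP', h1⟩ := Algebra.IsIntegral.isIntegral (R := O ⧸ m) (Ideal.Quotient.mk M x)
  obtain ⟨P, rfl, -, hP⟩ := lifts_and_natDegree_eq_and_monic (f := Ideal.Quotient.mk m)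
    ((lifts_iff_coeff_lifts _).2 fun n => Ideal.Quotient.mk_surjective _) hP'
  refine ⟨P, hP, ?_⟩
  rw [← Ideal.Quotient.eq_zero_iff_mem, ← h1, Polynomial.eval₂_map, Polynomial.hom_eval₂]
  rfl

/-- Density of the condition that an element of the valuation ring is algebraic over `O` modulo
the maximal ideal. -/
theorem dens_alg {O : Subring K} [IsNoetherianRing O]
    (hfrac : ∀ z : K, ∃ a ∈ O, ∃ b ∈ O, b ≠ 0 ∧ z = a * b⁻¹) (x : K)
    (X Y : Finset K) (hne : (Bas O X Y).Nonempty) :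
    ∃ X' Y' : Finset K, (Bas O X Y ∩ Bas O X' Y').Nonempty ∧ ∀ V ∈ Bas O X Y ∩ Bas O X' Y',
      x ∈ V.1 → ∃ P : O[X], P.Monic ∧ V.1.valuation (P.eval₂ O.subtype x) < 1 := by
  classical
  by_cases hT : ∃ V ∈ Bas O X Y, x ∉ V.1
  · obtain ⟨V, hV, hx⟩ := hT
    refine ⟨∅, {x}, ⟨V, hV, by simp [Bas, hx]⟩, ?_⟩
    rintro V' ⟨-, -, h1⟩ h2
    exact absurd h2 (h1 x (Finset.mem_singleton_self x))
  push Not at hT
  have hne' : (Bas O (insert x X) Y).Nonempty := by
    obtain ⟨V, hV⟩ := hne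
    refine ⟨V, fun y hy => ?_, hV.2⟩
    rcases Finset.mem_insert.1 hy with rfl | hy
    · exact hT V hV
    · exact hV.1 y hy
  obtain ⟨C, hOC, hCn, hCV, hXC, ⟨T, hTf, hCdef⟩, M, hM, hmM, hCM⟩ := exists_CM (insert x X) Y hne'
  have hfracC : ∀ z : K, ∃ a ∈ C, ∃ b ∈ C, b ≠ 0 ∧ z = a * b⁻¹ := by
    intro z
    obtain ⟨a, ha, b, hb, h⟩ := hfrac z
    exact ⟨a, hOC ha, b, hOC hb, h⟩
  obtain ⟨m, V₀, hDR, hCV₀, hV₀M, halg⟩ := exists_at_max hfracC M
  obtain ⟨hdom₀, hV₀B⟩ := hCM V₀ hCV₀ hV₀M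
  have hxC : x ∈ C := hXC x (Finset.mem_insert_self x X)
  obtain ⟨P, hP, hPx⟩ := alg_of_max hOC hTf hCdef M hmM ⟨x, hxC⟩
  have hev : ((P.eval₂ (Subring.inclusion hOC) ⟨x, hxC⟩ : C) : K) = P.eval₂ O.subtype x :=
    Polynomial.hom_eval₂ P (Subring.inclusion hOC) C.subtype ⟨x, hxC⟩
  have h1 : V₀.valuation (P.eval₂ O.subtype x) < 1 := by
    rw [← hev]
    exact (hV₀M _).2 hPx
  by_cases h0 : P.eval₂ O.subtype x = 0
  · refine ⟨∅, ∅, ⟨⟨V₀, hdom₀⟩, ⟨fun y hy => hV₀B.1 y (Finset.mem_insert_of_mem hy), hV₀B.2⟩,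
      by simp [Bas]⟩, fun V _ _ => ⟨P, hP, ?_⟩⟩
    rw [h0, map_zero]
    exact zero_lt_one
  · refine ⟨∅, {(P.eval₂ O.subtype x)⁻¹}, ⟨⟨V₀, hdom₀⟩,
      ⟨fun y hy => hV₀B.1 y (Finset.mem_insert_of_mem hy), hV₀B.2⟩, by simp, ?_⟩, ?_⟩
    · intro y hy hyV
      rw [Finset.mem_singleton] at hy
      subst hy
      exact lt_iff.1 h1 ⟨h0, hyV⟩
    · rintro V ⟨-, -, hVY⟩ -
      refine ⟨P, hP, ?_⟩
      rw [lt_iff]
      rintro ⟨-, h2⟩
      exact hVY _ (Finset.mem_singleton_self _) h2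

end Pool.Agent.Q40.GV
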