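import Pool.Agent.Q40.GV.Center

set_option autoImplicit false
set_option linter.style.haveILetI false
set_option linter.unusedVariables false

universe u

namespace Pool.Agent.Q40.GV

open IsLocalRing Polynomial Pool.Agent.TH188.QS Pool.Agent.W418.LU2

variable {K : Type u} [Field K]

/-- Elements of the valuation ring evaluated at polynomials with coefficients in the centre. -/
lemma eval_lt {R : Type u} [CommRing R] {V : ValuationSubring K} (φ : R →+* K) (Q : R[X])
    (hQ : ∀ i, V.valuation (φ (Q.coeff i)) < 1) {z : K} (hz : z ∈ V) :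
    V.valuation (Q.eval₂ φ z) < 1 := by
  rw [Polynomial.eval₂_eq_sum_range]
  have h1 : ∀ s : Finset ℕ, V.valuation (∑ i ∈ s, φ (Q.coeff i) * z ^ i) < 1 := by
    intro s
    induction s using Finset.induction_on with
    | empty => rw [Finset.sum_empty, map_zero]; exact zero_lt_one
    | insert i s hi ih =>
      rw [Finset.sum_insert hi]
      refine lt_add ?_ ih
      rw [mul_comm]
      exact lt_mul (V.toSubring.pow_mem hz i) (hQ i)
  exact h1 _

/-- Zero-dimensional discrete valuations centred at a maximal ideal. -/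
theorem exists_at_max {C : Subring K} [IsNoetherianRing C]
    (hfrac : ∀ z : K, ∃ a ∈ C, ∃ b ∈ C, b ≠ 0 ∧ z = a * b⁻¹) (M : Ideal C) [hM : M.IsMaximal] :
    ∃ (m : ℕ) (V : ValuationSubring K), DR m V ∧ C ≤ V.toSubring ∧
      (∀ c : C, V.valuation (c : K) < 1 ↔ c ∈ M) ∧
      ∀ z ∈ V, ∃ P : C[X], P.Monic ∧ V.valuation (P.eval₂ C.subtype z) < 1 := by
  classical
  have hu : ∀ s : M.primeCompl, IsUnit (C.subtype s) := fun s => by
    rw [isUnit_iff_ne_zero]
    intro h0
    have h1 : (s : C) = 0 := Subtype.ext h0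
    exact s.2 (by rw [h1]; exact M.zero_mem)
  let φ : Localization.AtPrime M →+* K := IsLocalization.lift hu
  have hφa : ∀ a : C, φ (algebraMap C _ a) = a := fun a => IsLocalization.lift_eq hu a
  have hφ : Function.Injective φ := by
    rw [IsLocalization.lift_injective_iff]
    intro x y
    constructor
    · intro h
      exact congrArg C.subtype (IsLocalization.injective _ M.primeCompl_le_nonZeroDivisors h)
    · intro h
      rw [Subtype.ext h]
  have hf : FinOver φ := by
    refine ⟨1, fun _ => 1, fun z => ?_⟩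
    obtain ⟨a, ha, b, hb, hb0, rfl⟩ := hfrac z
    refine ⟨algebraMap C _ ⟨b, hb⟩, by rw [hφa]; exact hb0, fun _ => algebraMap C _ ⟨a, ha⟩, ?_⟩
    simp only [hφa, Finset.univ_unique, Finset.sum_const, Finset.card_singleton, one_smul, mul_one]
    field_simp
  obtain ⟨n, hn⟩ : ∃ n : ℕ, ringKrullDim (Localization.AtPrime M) ≤ n := by
    have h1 : ringKrullDim (Localization.AtPrime M) < ⊤ := ringKrullDim_lt_top
    have h2 : ringKrullDim (Localization.AtPrime M) ≠ ⊥ := ringKrullDim_ne_bot
    obtain ⟨d, hd⟩ := WithBot.ne_bot_iff_exists.1 h2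
    rw [← hd] at h1 ⊢
    have h3 : d ≠ ⊤ := fun h => by rw [h] at h1; exact lt_irrefl _ h1
    obtain ⟨n, rfl⟩ := ENat.ne_top_iff_exists.1 h3
    exact ⟨n, le_rfl⟩
  obtain ⟨m, V, hDR, hdom, halg⟩ := exists_zd n φ hφ hf hn
  have hCV : C ≤ V.toSubring := fun c hc => by
    have := hdom.le (algebraMap C _ ⟨c, hc⟩)
    rwa [hφa] at this
  refine ⟨m, V, hDR, hCV, ?_, ?_⟩
  · intro c
    constructor
    · intro h
      by_contra hc
      have h1 : M < M ⊔ Ideal.span {c} := by
        refine lt_of_le_of_ne le_sup_left fun h2 => hc ?_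
        rw [h2]
        exact (le_sup_right : _ ≤ M ⊔ Ideal.span {c}) (Ideal.mem_span_singleton_self c)
      have h2 := hM.1.2 _ h1
      obtain ⟨x, hx, y, hy, hxy⟩ := Submodule.mem_sup.1 (show (1 : C) ∈ M ⊔ Ideal.span {c} by
        rw [h2]; trivial)
      obtain ⟨w, rfl⟩ := Ideal.mem_span_singleton'.1 hy
      have h3 : V.valuation (x : K) < 1 := by
        have := hdom.lt (algebraMap C _ x)
          ((IsLocalization.AtPrime.to_map_mem_maximal_iff _ M x).2 hx)
        rwa [hφa] at this
      have h4 : V.valuation ((w : K) * c) < 1 := lt_mul (hCV w.2) h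
      have h5 := lt_add h3 h4
      have h6 : (x : K) + w * c = 1 := congrArg Subtype.val hxy
      rw [h6, map_one] at h5
      exact lt_irrefl _ h5
    · intro h
      have := hdom.lt (algebraMap C _ c)
        ((IsLocalization.AtPrime.to_map_mem_maximal_iff _ M c).2 h)
      rwa [hφa] at this
  · intro z hz
    obtain ⟨P, hP, hPz⟩ := halg z hz
    let f : C →+* M.ResidueField := algebraMap C M.ResidueField
    have hf : Function.Surjective f := M.algebraMap_residueField_surjective
    obtain ⟨P', hP', -, hP'm⟩ := lifts_and_natDegree_eq_and_monic (f := f)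
      (p := P.map (residue (Localization.AtPrime M)))
      ((lifts_iff_coeff_lifts _).2 fun n => hf _) (hP.map _)
    refine ⟨P', hP'm, ?_⟩
    have h1 : P'.eval₂ C.subtype z = (P'.map (algebraMap C (Localization.AtPrime M))).eval₂ φ z := by
      rw [Polynomial.eval₂_map]
      congr 1
      ext a
      exact (hφa a).symm
    have h2 : P'.eval₂ C.subtype z = (P'.map (algebraMap C (Localization.AtPrime M)) - P).eval₂ φ z
        + P.eval₂ φ z := by
      rw [h1, Polynomial.eval₂_sub, sub_add_cancel]
    rw [h2]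
    refine lt_add (eval_lt φ _ (fun i => hdom.lt _ ?_) hz) hPz
    rw [← residue_eq_zero_iff, Polynomial.coeff_sub, map_sub, sub_eq_zero,
      ← Polynomial.coeff_map, ← Polynomial.coeff_map, Polynomial.map_map, ← hP']
    rfl

end Pool.Agent.Q40.GV
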