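import Mathlib

/-!
# The space of the valuation rings which dominate a local ring, with the patch topology
-/

set_option autoImplicit false

universe u

namespace Pool.Agent.Q40.GV

open Topology

variable {K : Type u} [Field K]

/-- The valuation ring `V` dominates the local ring `O`. -/
def Dominates (O : Subring K) (V : ValuationSubring K) : Prop :=
  O ≤ V.toSubring ∧ ∀ a ∈ O, a ≠ 0 → a⁻¹ ∈ V → a⁻¹ ∈ O

/-- The valuation rings of `K` which dominate `O`. -/
def Zar (O : Subring K) : Type u := {V : ValuationSubring K // Dominates O V}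

/-- The characteristic function of a valuation ring. -/
noncomputable def code {O : Subring K} (V : Zar O) (x : K) : Bool := by
  classical
  exact decide (x ∈ V.1)

/-- The patch topology: the coarsest topology for which the sets of the `V` with `x ∈ V` are open
and closed. -/
noncomputable instance (O : Subring K) : TopologicalSpace (Zar O) :=
  TopologicalSpace.induced code inferInstance

lemma code_eq {O : Subring K} (V : Zar O) (x : K) : code V x = true ↔ x ∈ V.1 := by
  simp [code]

lemma code_inj {O : Subring K} : Function.Injective (code : Zar O → K → Bool) := by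
  intro V V' h
  apply Subtype.ext
  apply SetLike.ext
  intro x
  rw [← code_eq, ← code_eq, h]

/-- The conditions on a characteristic function. -/
def Cond (O : Subring K) (f : K → Bool) : Prop :=
  (∀ a ∈ O, f a = true) ∧ (∀ a b, f a = true → f b = true → f (a + b) = true) ∧
    (∀ a b, f a = true → f b = true → f (a * b) = true) ∧ (∀ a, f a = true → f (-a) = true) ∧
    (∀ a, f a = true ∨ f a⁻¹ = true) ∧ ∀ a ∈ O, a ≠ 0 → f a⁻¹ = true → a⁻¹ ∈ O

lemma range_code (O : Subring K) : Set.range (code : Zar O → K → Bool) = {f | Cond O f} := by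
  ext f
  constructor
  · rintro ⟨V, rfl⟩
    refine ⟨fun a ha => (code_eq V a).2 (V.2.1 ha), fun a b ha hb => ?_, fun a b ha hb => ?_,
      fun a ha => ?_, fun a => ?_, fun a ha h0 h1 => V.2.2 a ha h0 ((code_eq _ _).1 h1)⟩
    · rw [code_eq] at *
      exact V.1.add_mem _ _ ha hb
    · rw [code_eq] at *
      exact V.1.mul_mem _ _ ha hb
    · rw [code_eq] at *
      exact V.1.neg_mem _ ha
    · rw [code_eq, code_eq]
      exact V.1.mem_or_inv_mem a
  · rintro ⟨h1, h2, h3, h4, h5, h6⟩
    let V : ValuationSubring K :=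
      { carrier := {x | f x = true}
        mul_mem' := fun {a b} ha hb => h3 a b ha hb
        one_mem' := h1 1 O.one_mem
        add_mem' := fun {a b} ha hb => h2 a b ha hb
        zero_mem' := h1 0 O.zero_mem
        neg_mem' := fun {a} ha => h4 a ha
        mem_or_inv_mem' := h5 }
    refine ⟨⟨V, fun a ha => h1 a ha, h6⟩, ?_⟩
    funext x
    rw [Bool.eq_iff_iff, code_eq]
    exact Iff.rfl

lemma closed_cond (O : Subring K) : IsClosed {f : K → Bool | Cond O f} := by
  have h1 : ∀ a, IsClopen {f : K → Bool | f a = true} := fun a =>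
    (isClopen_discrete {true}).preimage (continuous_apply a)
  have h2 : ∀ (p : Prop) (s : Set (K → Bool)), IsClosed s → IsClosed {f : K → Bool | p → f ∈ s} := by
    intro p s hs
    by_cases hp : p
    · simpa [hp] using hs
    · simp [hp]
  have h3 : ∀ (a : K) (s : Set (K → Bool)), IsClosed s →
      IsClosed {f : K → Bool | f a = true → f ∈ s} := by
    intro a s hs
    have h4 : {f : K → Bool | f a = true → f ∈ s} = {f : K → Bool | f a = true}ᶜ ∪ s := by
      ext f
      simp only [Set.mem_ofPred_eq, Set.mem_union, Set.mem_compl_iff]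
      tauto
    rw [h4]
    exact (h1 a).compl.1.union hs
  have h5 : {f : K → Bool | Cond O f} =
      (⋂ a, {f | a ∈ O → f ∈ {f : K → Bool | f a = true}}) ∩
      ((⋂ a, ⋂ b, {f | f a = true → f ∈ {f : K → Bool | f b = true → f ∈
        {f : K → Bool | f (a + b) = true}}}) ∩
      ((⋂ a, ⋂ b, {f | f a = true → f ∈ {f : K → Bool | f b = true → f ∈
        {f : K → Bool | f (a * b) = true}}}) ∩
      ((⋂ a, {f | f a = true → f ∈ {f : K → Bool | f (-a) = true}}) ∩
      ((⋂ a, ({f : K → Bool | f a = true} ∪ {f : K → Bool | f a⁻¹ = true})) ∩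
      (⋂ a, {f : K → Bool | (a ∈ O ∧ a ≠ 0 ∧ a⁻¹ ∉ O) → f ∈ {f : K → Bool | f a⁻¹ = true}ᶜ}))))) := by
    ext f
    simp only [Cond, Set.mem_ofPred_eq, Set.mem_inter_iff, Set.mem_iInter, Set.mem_union,
      Set.mem_compl_iff]
    refine and_congr_right fun _ => and_congr_right fun _ => and_congr_right fun _ =>
      and_congr_right fun _ => and_congr_right fun _ => ?_
    constructor
    · rintro h a ⟨ha, h0, h1⟩ h2
      exact h1 (h a ha h0 h2)
    · intro h a ha h0 h1
      by_contra h2
      exact h a ⟨ha, h0, h2⟩ h1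
  rw [h5]
  refine (isClosed_iInter fun a => h2 _ _ (h1 a).1).inter
    ((isClosed_iInter fun a => isClosed_iInter fun b => h3 _ _ (h3 _ _ (h1 _).1)).inter
    ((isClosed_iInter fun a => isClosed_iInter fun b => h3 _ _ (h3 _ _ (h1 _).1)).inter
    ((isClosed_iInter fun a => h3 _ _ (h1 _).1).inter
    ((isClosed_iInter fun a => (h1 _).1.union (h1 _).1).inter
    (isClosed_iInter fun a => h2 _ _ (h1 _).compl.1)))))

lemma isClosedEmbedding_code (O : Subring K) : IsClosedEmbedding (code : Zar O → K → Bool) :=
  { eq_induced := rfl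
    injective := code_inj
    isClosed_range := by rw [range_code]; exact closed_cond O }

instance (O : Subring K) : CompactSpace (Zar O) := (isClosedEmbedding_code O).compactSpace

instance (O : Subring K) : T2Space (Zar O) := (isClosedEmbedding_code O).isEmbedding.t2Space

lemma isOpen_mem {O : Subring K} (x : K) : IsOpen {V : Zar O | x ∈ V.1} := by
  have h1 : IsOpen {f : K → Bool | f x = true} :=
    ((isClopen_discrete {true}).preimage (continuous_apply x)).2
  have h2 := h1.preimage (isClosedEmbedding_code O).continuous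
  convert h2 using 1
  ext V
  exact (code_eq V x).symm

lemma isOpen_not_mem {O : Subring K} (x : K) : IsOpen {V : Zar O | x ∉ V.1} := by
  have h1 : IsOpen {f : K → Bool | f x = false} :=
    ((isClopen_discrete {false}).preimage (continuous_apply x)).2
  have h2 := h1.preimage (isClosedEmbedding_code O).continuous
  convert h2 using 1
  ext V
  change x ∉ V.1 ↔ code V x = false
  rw [← code_eq, Bool.not_eq_true]

/-- The basic open sets. -/
def Bas (O : Subring K) (X Y : Finset K) : Set (Zar O) :=
  {V | (∀ x ∈ X, x ∈ V.1) ∧ ∀ y ∈ Y, y ∉ V.1}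

lemma isOpen_bas (O : Subring K) (X Y : Finset K) : IsOpen (Bas O X Y) := by
  have h1 : Bas O X Y = (⋂ x ∈ X, {V : Zar O | x ∈ V.1}) ∩ ⋂ y ∈ Y, {V : Zar O | y ∉ V.1} := by
    ext V
    simp [Bas]
  rw [h1]
  exact (isOpen_biInter_finset fun x _ => isOpen_mem x).inter
    (isOpen_biInter_finset fun x _ => isOpen_not_mem x)

lemma exists_bas {O : Subring K} {U : Set (Zar O)} (hU : IsOpen U) {V : Zar O} (hV : V ∈ U) :
    ∃ X Y : Finset K, V ∈ Bas O X Y ∧ Bas O X Y ⊆ U := by
  classical
  obtain ⟨U', hU', rfl⟩ := isOpen_induced_iff.1 hU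
  obtain ⟨I, u, hu, hI⟩ := isOpen_pi_iff.1 hU' (code V) hV
  refine ⟨I.filter (fun x => x ∈ V.1), I.filter (fun x => x ∉ V.1), ⟨fun x hx =>
    (Finset.mem_filter.1 hx).2, fun x hx => (Finset.mem_filter.1 hx).2⟩, ?_⟩
  rintro V' ⟨h1, h2⟩
  refine hI ?_
  intro i hi
  have h3 : code V' i = code V i := by
    rw [Bool.eq_iff_iff, code_eq, code_eq]
    constructor
    · intro h
      by_contra hc
      exact h2 i (Finset.mem_filter.2 ⟨hi, hc⟩) h
    · intro h
      exact h1 i (Finset.mem_filter.2 ⟨hi, h⟩)
  rw [h3]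
  exact (hu i hi).2

/-- The basic criterion for residual sets. -/
theorem residual_of {O : Subring K} (P : Zar O → Prop)
    (h : ∀ X Y : Finset K, (Bas O X Y).Nonempty → ∃ X' Y' : Finset K,
      (Bas O X Y ∩ Bas O X' Y').Nonempty ∧ ∀ V ∈ Bas O X Y ∩ Bas O X' Y', P V) :
    {V | P V} ∈ residual (Zar O) := by
  refine Filter.mem_of_superset (residual_of_dense_open (s := interior {V | P V}) isOpen_interior ?_)
    interior_subset
  rw [dense_iff_inter_open]
  rintro U hU ⟨V, hV⟩
  obtain ⟨X, Y, hVB, hB⟩ := exists_bas hU hV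
  obtain ⟨X', Y', ⟨V', hV'⟩, h1⟩ := h X Y ⟨V, hVB⟩
  refine ⟨V', hB hV'.1, ?_⟩
  rw [mem_interior]
  exact ⟨_, h1, (isOpen_bas O X Y).inter (isOpen_bas O X' Y'), hV'⟩

end Pool.Agent.Q40.GV
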