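import Pool.Agent.Q40.GV.Exist
import Pool.Agent.Q40.GV.Space
import Pool.Agent.TH188.QS.Fin

set_option autoImplicit false
set_option linter.style.haveILetI false
set_option linter.unusedVariables false

universe u

namespace Pool.Agent.Q40.GV

open IsLocalRing Polynomial Pool.Agent.TH188.QS Pool.Agent.W418.LU2

variable {K : Type u} [Field K]

/-- The centre of `V` on `C`. -/
def cen (V : ValuationSubring K) (C : Subring K) (hC : C ≤ V.toSubring) : Ideal C :=
  (maximalIdeal V).comap ((C.subtype.codRestrict V.toSubring fun c => hC c.2) : C →+* V)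

lemma mem_cen {V : ValuationSubring K} {C : Subring K} (hC : C ≤ V.toSubring) (c : C) :
    c ∈ cen V C hC ↔ V.valuation c < 1 :=
  V.valuation_lt_one_iff ⟨c, hC c.2⟩

lemma cen_prime (V : ValuationSubring K) (C : Subring K) (hC : C ≤ V.toSubring) :
    (cen V C hC).IsPrime := Ideal.comap_isPrime _ _

lemma lt_mul {V : ValuationSubring K} {a b : K} (ha : a ∈ V) (hb : V.valuation b < 1) :
    V.valuation (a * b) < 1 := by
  rw [map_mul]
  exact mul_lt_one_of_nonneg_of_lt_one_right ((V.valuation_le_one_iff _).2 ha) zero_le hb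

lemma lt_add {V : ValuationSubring K} {a b : K} (ha : V.valuation a < 1)
    (hb : V.valuation b < 1) : V.valuation (a + b) < 1 :=
  (V.valuation.map_add _ _).trans_lt (max_lt ha hb)

lemma lt_neg {V : ValuationSubring K} {a : K} (ha : V.valuation a < 1) :
    V.valuation (-a) < 1 := by rwa [Valuation.map_neg]

lemma lt_sub {V : ValuationSubring K} {a b : K} (ha : V.valuation a < 1)
    (hb : V.valuation b < 1) : V.valuation (a - b) < 1 := by
  rw [sub_eq_add_neg]; exact lt_add ha (lt_neg hb)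

lemma mem_of_lt {V : ValuationSubring K} {a : K} (ha : V.valuation a < 1) : a ∈ V :=
  (V.valuation_le_one_iff _).1 ha.le

/-- If every element of `C` not in the centre is invertible modulo the centre, and the elements of
`C'` are algebraic over `C` modulo the centre, then the same is true for `C'`. -/
theorem inv_of_alg {V : ValuationSubring K} {C C' : Subring K} (hCC : C ≤ C')
    (hC' : C' ≤ V.toSubring)
    (hinv : ∀ c ∈ C, ¬ V.valuation c < 1 → ∃ c' ∈ C, V.valuation (c * c' - 1) < 1) (z : K)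
    (hz : z ∈ C') (hzu : ¬ V.valuation z < 1)
    (halg : ∃ P : C[X], P.Monic ∧ V.valuation (P.eval₂ C.subtype z) < 1) :
    ∃ z' ∈ C', V.valuation (z * z' - 1) < 1 := by
  classical
  have hex : ∃ d, ∃ P : C[X], P.Monic ∧ V.valuation (P.eval₂ C.subtype z) < 1 ∧
      P.natDegree = d := by
    obtain ⟨P, h1, h2⟩ := halg
    exact ⟨_, P, h1, h2, rfl⟩
  obtain ⟨P, hP, hPz, hd⟩ := Nat.find_spec hex
  have hmin := fun m hm => Nat.find_min hex (m := m) hm
  have hev : ∀ Q : C[X], Q.eval₂ C.subtype z ∈ C' := by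
    intro Q
    rw [Polynomial.eval₂_eq_sum_range]
    exact Subring.sum_mem _ fun i _ => C'.mul_mem (hCC (Q.coeff i).2) (C'.pow_mem hz i)
  have hd0 : P.natDegree ≠ 0 := by
    intro h0
    have h1 : P = 1 := Polynomial.eq_one_of_monic_natDegree_zero hP h0
    rw [h1, Polynomial.eval₂_one, map_one] at hPz
    exact lt_irrefl _ hPz
  have hdec : P.eval₂ C.subtype z = (P.divX).eval₂ C.subtype z * z + (P.coeff 0 : K) := by
    conv_lhs => rw [← Polynomial.divX_mul_X_add P]
    rw [Polynomial.eval₂_add, Polynomial.eval₂_mul, Polynomial.eval₂_X, Polynomial.eval₂_C]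
    rfl
  have hmon : P.divX.Monic := by
    have h1 : P.divX.natDegree = P.natDegree - 1 := Polynomial.natDegree_divX_eq_natDegree_tsub_one
    rw [Polynomial.Monic, Polynomial.leadingCoeff, h1, Polynomial.coeff_divX]
    have h2 : P.natDegree - 1 + 1 = P.natDegree := Nat.succ_pred_eq_of_ne_zero hd0
    rw [h2]
    exact hP
  have hQ : ¬ V.valuation (P.divX.eval₂ C.subtype z) < 1 := by
    intro hQ
    refine hmin (P.natDegree - 1) ?_ ⟨P.divX, hmon, hQ,
      Polynomial.natDegree_divX_eq_natDegree_tsub_one⟩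
    rw [← hd]
    exact Nat.pred_lt hd0
  have ha0 : ¬ V.valuation (P.coeff 0 : K) < 1 := by
    intro ha0
    have h1 : V.valuation (P.divX.eval₂ C.subtype z * z) < 1 := by
      have h2 := lt_sub hPz ha0
      rwa [hdec, add_sub_cancel_right] at h2
    rw [lt_iff, not_not] at hQ hzu
    rw [lt_iff] at h1
    refine h1 ⟨mul_ne_zero hQ.1 hzu.1, ?_⟩
    rw [mul_inv]
    exact V.mul_mem _ _ hQ.2 hzu.2
  obtain ⟨c', hc', h1⟩ := hinv _ (P.coeff 0).2 ha0
  refine ⟨-(P.divX.eval₂ C.subtype z * c'), C'.neg_mem (C'.mul_mem (hev _) (hCC hc')), ?_⟩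
  have h2 : z * -(P.divX.eval₂ C.subtype z * c') - 1 =
      ((P.coeff 0 : K) * c' - 1) - c' * P.eval₂ C.subtype z := by
    rw [hdec]
    ring
  rw [h2]
  exact lt_sub h1 (lt_mul (hC' (hCC hc')) hPz)

/-- The centre is determined by its generators when it is maximal. -/
theorem cen_eq {V V₀ : ValuationSubring K} {C : Subring K} (hC : C ≤ V.toSubring)
    (hC₀ : C ≤ V₀.toSubring)
    (hinv : ∀ c ∈ C, ¬ V₀.valuation c < 1 → ∃ c' ∈ C, V₀.valuation (c * c' - 1) < 1)
    (S : Finset C) (hS : Ideal.span (S : Set C) = cen V₀ C hC₀)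
    (hV : ∀ s ∈ S, V.valuation (s : K) < 1) (c : K) (hc : c ∈ C) :
    V.valuation c < 1 ↔ V₀.valuation c < 1 := by
  have h1 : ∀ c : C, V₀.valuation (c : K) < 1 → V.valuation (c : K) < 1 := by
    intro c hc
    rw [← mem_cen hC₀, ← hS] at hc
    rw [← mem_cen hC]
    refine (Ideal.span_le.2 fun s hs => ?_) hc
    exact (mem_cen hC s).2 (hV s hs)
  constructor
  · intro h
    by_contra h0
    obtain ⟨c', hc', h2⟩ := hinv c hc h0
    have h3 := h1 ⟨c * c' - 1, C.sub_mem (C.mul_mem hc hc') C.one_mem⟩ h2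
    have h4 : V.valuation (c' * c) < 1 := lt_mul (hC hc') h
    have h5 : V.valuation (1 : K) < 1 := by
      have h6 := lt_sub h4 h3
      have h7 : c' * c - (c * c' - 1) = 1 := by ring
      change V.valuation (c' * c - (c * c' - 1)) < 1 at h6
      rwa [h7] at h6
    rw [map_one] at h5
    exact lt_irrefl _ h5
  · exact h1 ⟨c, hc⟩

/-- The local rings at the centres agree. -/
theorem lo_eq {V V₀ : ValuationSubring K} {C A : Subring K} (hA : A ≤ C)
    (h : ∀ c ∈ C, V.valuation c < 1 ↔ V₀.valuation c < 1) :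
    lo V.toSubring A = lo V₀.toSubring A := by
  have h1 : ∀ b ∈ A, b ≠ 0 → (b⁻¹ ∈ V ↔ b⁻¹ ∈ V₀) := by
    intro b hb hb0
    have h2 := h b (hA hb)
    rw [lt_iff, lt_iff, not_iff_not] at h2
    constructor
    · intro h3; exact (h2.1 ⟨hb0, h3⟩).2
    · intro h3; exact (h2.2 ⟨hb0, h3⟩).2
  ext z
  rw [mem_lo, mem_lo]
  constructor
  · rintro ⟨a, ha, b, hb, hb0, hbV, rfl⟩
    exact ⟨a, ha, b, hb, hb0, (h1 b hb hb0).1 hbV, rfl⟩
  · rintro ⟨a, ha, b, hb, hb0, hbV, rfl⟩
    exact ⟨a, ha, b, hb, hb0, (h1 b hb hb0).2 hbV, rfl⟩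

end Pool.Agent.Q40.GV
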