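import Pool.Agent.TH188.QS.Fin
import Pool.Agent.Y562.NN.KA2

/-!
# Zero-dimensional discrete valuations which dominate a noetherian local domain
-/

set_option autoImplicit false

universe u

namespace Pool.Agent.Q40.GV

open IsLocalRing Polynomial Pool.Agent.TH188.QS Pool.Agent.W418.LU2

variable {K : Type u} [Field K]

/-- The composite of `V₁` and a valuation ring `W` of its residue field. -/
def comp (V₁ : ValuationSubring K) (W : ValuationSubring (ResidueField V₁)) :
    ValuationSubring K where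
  carrier := {z | ∃ h : z ∈ V₁, residue V₁ ⟨z, h⟩ ∈ W}
  mul_mem' := by
    rintro a b ⟨ha, ha'⟩ ⟨hb, hb'⟩
    refine ⟨V₁.mul_mem _ _ ha hb, ?_⟩
    have h := W.mul_mem _ _ ha' hb'
    rwa [← map_mul] at h
  one_mem' := ⟨V₁.one_mem, by
    have h : (⟨1, V₁.one_mem⟩ : V₁) = 1 := rfl
    rw [h, map_one]; exact W.one_mem⟩
  add_mem' := by
    rintro a b ⟨ha, ha'⟩ ⟨hb, hb'⟩
    refine ⟨V₁.add_mem _ _ ha hb, ?_⟩
    have h := W.add_mem _ _ ha' hb'
    rwa [← map_add] at h
  zero_mem' := ⟨V₁.zero_mem, by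
    have h : (⟨0, V₁.zero_mem⟩ : V₁) = 0 := rfl
    rw [h, map_zero]; exact W.zero_mem⟩
  neg_mem' := by
    rintro a ⟨ha, ha'⟩
    refine ⟨V₁.neg_mem _ ha, ?_⟩
    have h := W.neg_mem _ ha'
    rwa [← map_neg] at h
  mem_or_inv_mem' := by
    intro z
    rcases V₁.mem_or_inv_mem z with h | h
    · by_cases hi : z⁻¹ ∈ V₁
      · rcases W.mem_or_inv_mem (residue V₁ ⟨z, h⟩) with h1 | h1
        · exact Or.inl ⟨h, h1⟩
        · rcases eq_or_ne z 0 with rfl | hz
          · refine Or.inl ⟨h, ?_⟩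
            have h2 : (⟨0, h⟩ : V₁) = 0 := rfl
            rw [h2, map_zero]; exact W.zero_mem
          · refine Or.inr ⟨hi, ?_⟩
            have h2 : residue V₁ ⟨z⁻¹, hi⟩ = (residue V₁ ⟨z, h⟩)⁻¹ := by
              apply eq_inv_of_mul_eq_one_left
              rw [← map_mul]
              have h3 : (⟨z⁻¹, hi⟩ * ⟨z, h⟩ : V₁) = 1 := Subtype.ext (inv_mul_cancel₀ hz)
              rw [h3, map_one]
            rw [h2]; exact h1
      · refine Or.inl ⟨h, ?_⟩
        have h2 : residue V₁ ⟨z, h⟩ = 0 := by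
          rw [residue_eq_zero_iff, mem_maximalIdeal, mem_nonunits_iff]
          intro hu
          obtain ⟨w, hw⟩ := isUnit_iff_exists_inv.1 hu
          apply hi
          have h3 : z * (w : K) = 1 := congrArg Subtype.val hw
          rw [inv_eq_of_mul_eq_one_right h3]
          exact w.2
        rw [h2]; exact W.zero_mem
    · by_cases hi : z ∈ V₁
      · rcases W.mem_or_inv_mem (residue V₁ ⟨z, hi⟩) with h1 | h1
        · exact Or.inl ⟨hi, h1⟩
        · rcases eq_or_ne z 0 with rfl | hz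
          · refine Or.inl ⟨hi, ?_⟩
            have h2 : (⟨0, hi⟩ : V₁) = 0 := rfl
            rw [h2, map_zero]; exact W.zero_mem
          · refine Or.inr ⟨h, ?_⟩
            have h2 : residue V₁ ⟨z⁻¹, h⟩ = (residue V₁ ⟨z, hi⟩)⁻¹ := by
              apply eq_inv_of_mul_eq_one_left
              rw [← map_mul]
              have h3 : (⟨z⁻¹, h⟩ * ⟨z, hi⟩ : V₁) = 1 := Subtype.ext (inv_mul_cancel₀ hz)
              rw [h3, map_one]
            rw [h2]; exact h1
      · refine Or.inr ⟨h, ?_⟩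
        have h2 : residue V₁ ⟨z⁻¹, h⟩ = 0 := by
          rw [residue_eq_zero_iff, mem_maximalIdeal, mem_nonunits_iff]
          intro hu
          obtain ⟨w, hw⟩ := isUnit_iff_exists_inv.1 hu
          apply hi
          have h3 : z⁻¹ * (w : K) = 1 := congrArg Subtype.val hw
          rw [← inv_inv z, inv_eq_of_mul_eq_one_right h3]
          exact w.2
        rw [h2]; exact W.zero_mem

lemma mem_comp {V₁ : ValuationSubring K} {W : ValuationSubring (ResidueField V₁)} {z : K} :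
    z ∈ comp V₁ W ↔ ∃ h : z ∈ V₁, residue V₁ ⟨z, h⟩ ∈ W := Iff.rfl

lemma lt_iff {V : ValuationSubring K} {z : K} : V.valuation z < 1 ↔ ¬ (z ≠ 0 ∧ z⁻¹ ∈ V) :=
  nu_iff.symm

lemma comp_lt {V₁ : ValuationSubring K} {W : ValuationSubring (ResidueField V₁)} {z : K}
    (h : z ∈ V₁) (hz : W.valuation (residue V₁ ⟨z, h⟩) < 1) : (comp V₁ W).valuation z < 1 := by
  rw [lt_iff] at hz ⊢
  rintro ⟨h0, h1, h2⟩
  have h3 : residue V₁ ⟨z, h⟩ * residue V₁ ⟨z⁻¹, h1⟩ = 1 := by
    rw [← map_mul]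
    have h3 : (⟨z, h⟩ * ⟨z⁻¹, h1⟩ : V₁) = 1 := Subtype.ext (mul_inv_cancel₀ h0)
    rw [h3, map_one]
  refine hz ⟨left_ne_zero_of_mul_eq_one h3, ?_⟩
  rw [inv_eq_of_mul_eq_one_right h3]
  exact h2

lemma residue_eq_zero_of_lt {V₁ : ValuationSubring K} {z : K} (h : z ∈ V₁)
    (hz : V₁.valuation z < 1) : residue V₁ ⟨z, h⟩ = 0 := by
  rw [residue_eq_zero_iff]
  exact (V₁.valuation_lt_one_iff ⟨z, h⟩).2 hz

/-- `L` is spanned by finitely many elements over the domain `O`, up to denominators. -/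
def FinOver {O L : Type u} [CommRing O] [Field L] (φ : O →+* L) : Prop :=
  ∃ (n : ℕ) (b : Fin n → L), ∀ z : L, ∃ r : O, φ r ≠ 0 ∧ ∃ c : Fin n → O,
    φ r * z = ∑ i, φ (c i) * b i

/-- `V` dominates `O`, and its residue field is algebraic over the residue field of `O`. -/
structure Dom {O L : Type u} [CommRing O] [IsLocalRing O] [Field L] (φ : O →+* L)
    (V : ValuationSubring L) : Prop where
  le : ∀ a, φ a ∈ V
  lt : ∀ a ∈ maximalIdeal O, V.valuation (φ a) < 1

/-- The residue field of `V` is algebraic over the residue field of `O`. -/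
def AlgRes {O L : Type u} [CommRing O] [Field L] (φ : O →+* L) (V : ValuationSubring L) : Prop :=
  ∀ z ∈ V, ∃ P : O[X], P.Monic ∧ V.valuation (P.eval₂ φ z) < 1

end Pool.Agent.Q40.GV
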