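import Pool.Agent.Q40.GV.AtMax
import Pool.Agent.TH188.QS.Cls

set_option autoImplicit false
set_option linter.style.haveILetI false
set_option linter.unusedVariables false

universe u

namespace Pool.Agent.Q40.GV

open IsLocalRing Polynomial Pool.Agent.TH188.QS Pool.Agent.W418.LU2

variable {K : Type u} [Field K]

/-- The algebra and the maximal ideal for a basic open set. -/
theorem exists_CM {O : Subring K} [IsNoetherianRing O] (X Y : Finset K)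
    (hne : (Bas O X Y).Nonempty) :
    ∃ C : Subring K, O ≤ C ∧ IsNoetherianRing C ∧ (∀ V ∈ Bas O X Y, C ≤ V.1.toSubring) ∧
      (∀ x ∈ X, x ∈ C) ∧ (∃ T : Set K, T.Finite ∧ C = Subring.closure ((O : Set K) ∪ T)) ∧
      ∃ M : Ideal C, M.IsMaximal ∧ (∀ a ∈ O, a ≠ 0 → a⁻¹ ∉ O → ∃ h : a ∈ C, ⟨a, h⟩ ∈ M) ∧
        ∀ V : ValuationSubring K, C ≤ V.toSubring →
        (∀ c : C, V.valuation (c : K) < 1 ↔ c ∈ M) → ∃ h : Dominates O V,
          (⟨V, h⟩ : Zar O) ∈ Bas O X Y := by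
  classical
  obtain ⟨V, hVX, hVY⟩ := hne
  let T : Set K := (X : Set K) ∪ (Y.image fun y => y⁻¹ : Finset K)
  have hTf : T.Finite := X.finite_toSet.union (Finset.finite_toSet _)
  let C := Subring.closure ((O : Set K) ∪ T)
  have hOC : O ≤ C := fun a ha => Subring.subset_closure (Or.inl ha)
  have hCV : ∀ V ∈ Bas O X Y, C ≤ V.1.toSubring := by
    rintro V ⟨hVX, hVY⟩
    refine cl_le V.2.1 ?_
    rintro t (ht | ht)
    · exact hVX t ht
    · obtain ⟨y, hy, rfl⟩ := Finset.mem_image.1 (Finset.mem_coe.1 ht)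
      exact (V.1.mem_or_inv_mem y).resolve_left (hVY y hy)
  have hCVV := hCV V ⟨hVX, hVY⟩
  have hXC : ∀ x ∈ X, x ∈ C := fun x hx => Subring.subset_closure (Or.inr (Or.inl hx))
  have hYC : ∀ y ∈ Y, y⁻¹ ∈ C := fun y hy => Subring.subset_closure (Or.inr (Or.inr
    (Finset.mem_coe.2 (Finset.mem_image.2 ⟨y, hy, rfl⟩))))
  obtain ⟨M, hM, hcM⟩ := Ideal.exists_le_maximal (cen V.1 C hCVV) (cen_prime V.1 C hCVV).ne_top
  have hmM : ∀ a ∈ O, a ≠ 0 → a⁻¹ ∉ O → ∃ h : a ∈ C, ⟨a, h⟩ ∈ M := by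
    intro a ha ha0 h2
    have h3 : V.1.valuation a < 1 := by
      rw [lt_iff]
      rintro ⟨-, h4⟩
      exact h2 (V.2.2 a ha ha0 h4)
    exact ⟨hOC ha, hcM ((mem_cen hCVV _).2 h3)⟩
  refine ⟨C, hOC, noeth_cl hTf, hCV, hXC, ⟨T, hTf, rfl⟩, M, hM, hmM, fun V' hCV' hV' => ?_⟩
  have hdom : Dominates O V' := by
    refine ⟨hOC.trans hCV', fun a ha ha0 h1 => ?_⟩
    by_contra h2
    obtain ⟨h, h3⟩ := hmM a ha ha0 h2
    exact lt_iff.1 ((hV' ⟨a, h⟩).2 h3) ⟨ha0, h1⟩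
  refine ⟨hdom, fun x hx => hCV' (hXC x hx), fun y hy hyV' => ?_⟩
  have hy0 : y ≠ 0 := fun h => hVY y hy (by rw [h]; exact V.1.zero_mem)
  have h3 : V.1.valuation y⁻¹ < 1 := by
    rw [lt_iff, inv_inv]
    exact fun h => hVY y hy h.2
  have h4 : V'.valuation y⁻¹ < 1 := (hV' ⟨y⁻¹, hYC y hy⟩).2 (hcM ((mem_cen hCVV _).2 h3))
  rw [lt_iff, inv_inv] at h4
  exact h4 ⟨inv_ne_zero hy0, hyV'⟩

/-- Local density of the condition of log desingularization. -/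
theorem dens {R : Type u} [CommRing R] (hR : HJ R) (ρ : R →+* K) {O : Subring K}
    (hρO : ρ.range ≤ O) [IsNoetherianRing O]
    (hfrac : ∀ z : K, ∃ a ∈ O, ∃ b ∈ O, b ≠ 0 ∧ z = a * b⁻¹) (T : Finset K) {A : Subring K}
    (hAdef : A = Subring.closure ((ρ.range : Set K) ∪ T)) (D I₀ : Ideal A) (hD : D ≠ ⊥)
    (hI₀ : I₀ ≠ ⊥) (X Y : Finset K) (hne : (Bas O X Y).Nonempty) :
    ∃ X' Y' : Finset K, (Bas O X Y ∩ Bas O X' Y').Nonempty ∧ ∀ V ∈ Bas O X Y ∩ Bas O X' Y',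
      (∀ t ∈ T, t ∈ V.1) → ∃ I₁ : Ideal A, I₁ ≠ ⊥ ∧ LogDesing V.1 A D (I₀ * I₁) := by
  classical
  by_cases hT : ∃ V ∈ Bas O X Y, ∃ t ∈ T, t ∉ V.1
  · obtain ⟨V, hV, t, ht, htV⟩ := hT
    refine ⟨∅, {t}, ⟨V, hV, by simp [Bas, htV]⟩, ?_⟩
    rintro V' ⟨-, -, h1⟩ h2
    exact absurd (h2 t ht) (h1 t (Finset.mem_singleton_self t))
  push Not at hT
  obtain ⟨C, hOC, hCn, hCV, hXC, -, M, hM, -, hCM⟩ := exists_CM X Y hne
  have hfracC : ∀ z : K, ∃ a ∈ C, ∃ b ∈ C, b ≠ 0 ∧ z = a * b⁻¹ := by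
    intro z
    obtain ⟨a, ha, b, hb, h⟩ := hfrac z
    exact ⟨a, hOC ha, b, hOC hb, h⟩
  obtain ⟨m, V₀, hDR, hCV₀, hV₀M, halg⟩ := exists_at_max hfracC M
  obtain ⟨hdom₀, hV₀B⟩ := hCM V₀ hCV₀ hV₀M
  have hTV₀ : ∀ t ∈ T, t ∈ V₀ := hT _ hV₀B
  have hAV₀ : A ≤ V₀.toSubring := by
    rw [hAdef, Subring.closure_le]
    rintro t (ht | ht)
    · exact hCV₀ (hOC (hρO ht))
    · exact hTV₀ t ht
  obtain ⟨hGP, hAn⟩ := main hR (V := V₀) ρ T.finite_toSet (B := A) hAV₀ hAdef.ge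
    (fun b hb => ⟨b, hAdef ▸ hb, 1, Subring.one_mem _, one_ne_zero, by rw [inv_one]; exact Subring.one_mem _,
      by rw [inv_one, mul_one]⟩) (Or.inl ⟨m, hDR⟩)
  obtain ⟨I₁, hI₁, f, hfI, hf0, hfV, hreg⟩ := hGP.logUnif hAV₀ D I₀ hD hI₀
  obtain ⟨SI, hSI⟩ := (IsNoetherian.noetherian (I₀ * I₁) : (I₀ * I₁).FG)
  have hSI : Ideal.span (SI : Set A) = I₀ * I₁ := hSI
  let G : Finset K := T ∪ SI.image (fun a : A => (a : K) / (f : K))
  let C' := Subring.closure ((C : Set K) ∪ (G : Set K))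
  have hC'n : IsNoetherianRing C' := noeth_cl G.finite_toSet
  have hCC' : C ≤ C' := fun a ha => Subring.subset_closure (Or.inl ha)
  have hGV₀ : ∀ t ∈ G, t ∈ V₀ := by
    intro t ht
    rcases Finset.mem_union.1 ht with ht | ht
    · exact hTV₀ t ht
    · obtain ⟨a, ha, rfl⟩ := Finset.mem_image.1 ht
      exact hfV a (by rw [← hSI]; exact Ideal.subset_span ha)
  have hC'V₀ : C' ≤ V₀.toSubring := cl_le hCV₀ hGV₀
  have hAC' : A ≤ C' := by
    rw [hAdef, Subring.closure_le]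
    rintro t (ht | ht)
    · exact hCC' (hOC (hρO ht))
    · exact Subring.subset_closure (Or.inr (Finset.mem_coe.2 (Finset.mem_union_left _ ht)))
  have hIC' : ∀ a ∈ I₀ * I₁, (a : K) / (f : K) ∈ C' := by
    intro a ha
    rw [← hSI] at ha
    induction ha using Submodule.span_induction with
    | mem x hx => exact Subring.subset_closure (Or.inr (Finset.mem_coe.2 (Finset.mem_union_right _
        (Finset.mem_image_of_mem _ hx))))
    | zero =>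
      change ((0 : A) : K) / (f : K) ∈ C'
      rw [Subring.coe_zero, zero_div]
      exact C'.zero_mem
    | add x y _ _ hx hy =>
      change ((x + y : A) : K) / (f : K) ∈ C'
      rw [Subring.coe_add, add_div]
      exact C'.add_mem hx hy
    | smul r x _ hx =>
      change ((r * x : A) : K) / (f : K) ∈ C'
      rw [Subring.coe_mul, mul_div_assoc]
      exact C'.mul_mem (hAC' r.2) hx
  have hchart : chart A (I₀ * I₁) f ≤ C' := by
    unfold chart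
    rw [Subring.closure_le]
    rintro z (hz | ⟨a, ha, rfl⟩)
    · exact hAC' hz
    · exact hIC' a ha
  -- the centre on `C'`
  have hinvC : ∀ c ∈ C, ¬ V₀.valuation c < 1 → ∃ c' ∈ C, V₀.valuation (c * c' - 1) < 1 := by
    intro c hc hc1
    have h1 : (⟨c, hc⟩ : C) ∉ M := fun h => hc1 ((hV₀M ⟨c, hc⟩).2 h)
    have h2 : M < M ⊔ Ideal.span {(⟨c, hc⟩ : C)} := by
      refine lt_of_le_of_ne le_sup_left fun h2 => h1 ?_
      rw [h2]
      exact (le_sup_right : _ ≤ M ⊔ Ideal.span {(⟨c, hc⟩ : C)}) (Ideal.mem_span_singleton_self _)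
    have h3 := hM.1.2 _ h2
    obtain ⟨x, hx, y, hy, hxy⟩ := Submodule.mem_sup.1
      (show (1 : C) ∈ M ⊔ Ideal.span {(⟨c, hc⟩ : C)} by rw [h3]; trivial)
    obtain ⟨w, rfl⟩ := Ideal.mem_span_singleton'.1 hy
    refine ⟨w, w.2, ?_⟩
    have h4 : (x : K) + w * c = 1 := congrArg Subtype.val hxy
    have h5 : c * (w : K) - 1 = - x := by
      rw [← h4]; ring
    rw [h5]
    exact lt_neg ((hV₀M x).2 hx)
  have hinv : ∀ c ∈ C', ¬ V₀.valuation c < 1 → ∃ c' ∈ C', V₀.valuation (c * c' - 1) < 1 :=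
    fun c hc hc1 => inv_of_alg hCC' hC'V₀ hinvC c hc hc1 (halg c (hC'V₀ hc))
  obtain ⟨S, hS⟩ := (IsNoetherian.noetherian (cen V₀ C' hC'V₀) : (cen V₀ C' hC'V₀).FG)
  have hS : Ideal.span (S : Set C') = cen V₀ C' hC'V₀ := hS
  let Y' : Finset K := (S.filter fun s : C' => (s : K) ≠ 0).image fun s : C' => (s : K)⁻¹
  refine ⟨G, Y', ⟨⟨V₀, hdom₀⟩, hV₀B, hGV₀, ?_⟩, ?_⟩
  · intro y hy hyV
    obtain ⟨s, hs, rfl⟩ := Finset.mem_image.1 hy
    obtain ⟨hsS, hs0⟩ := Finset.mem_filter.1 hs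
    have h1 : V₀.valuation (s : K) < 1 := by
      rw [← mem_cen hC'V₀, ← hS]
      exact Ideal.subset_span hsS
    exact lt_iff.1 h1 ⟨hs0, hyV⟩
  · rintro V ⟨hVB, hVG, hVY⟩ -
    have hC'V : C' ≤ V.1.toSubring := cl_le (hCV V hVB) hVG
    have hVS : ∀ s ∈ S, V.1.valuation (s : K) < 1 := by
      intro s hs
      rw [lt_iff]
      rintro ⟨hs0, hsV⟩
      exact hVY _ (Finset.mem_image.2 ⟨s, Finset.mem_filter.2 ⟨hs, hs0⟩, rfl⟩) hsV
    have heq := cen_eq hC'V hC'V₀ hinv S hS hVS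
    have hlo := lo_eq (V := V.1) (V₀ := V₀) hchart heq
    refine ⟨I₁, hI₁, f, hfI, hf0, fun a ha => hC'V (hIC' a ha), ?_⟩
    have key : ∀ P P' : Subring K, P = P' →
        RegularPair P' (Ideal.span {z | ∃ a ∈ D * (I₀ * I₁), (z : K) = (a : K)}) →
        RegularPair P (Ideal.span {z | ∃ a ∈ D * (I₀ * I₁), (z : K) = (a : K)}) := by
      rintro P P' rfl h
      exact h
    exact key _ _ hlo hreg

end Pool.Agent.Q40.GV
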