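import Pool.Agent.Q40.GV.Comp

set_option autoImplicit false
set_option linter.style.haveILetI false

universe u

namespace Pool.Agent.Q40.GV

open IsLocalRing Polynomial Pool.Agent.TH188.QS Pool.Agent.W418.LU2

/-- Krull and Akizuki for local rings. -/
theorem ka_local {R L : Type u} [CommRing R] [IsDomain R] [IsLocalRing R] [IsNoetherianRing R]
    [Ring.KrullDimLE 1 R] [Field L] (ψ : R →+* L) (hψ : Function.Injective ψ) (hf : FinOver ψ)
    (hm : maximalIdeal R ≠ ⊥) :
    ∃ (V₁ : ValuationSubring L) (hV : ∀ a, ψ a ∈ V₁), IsDiscreteValuationRing V₁ ∧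
      (∀ a, V₁.valuation (ψ a) < 1 ↔ a ∈ maximalIdeal R) ∧
      ∃ (n : ℕ) (b : Fin n → ResidueField V₁), ∀ z : ResidueField V₁, ∃ c : Fin n → R,
        z = ∑ i, residue V₁ ⟨ψ (c i), hV (c i)⟩ * b i := by
  classical
  obtain ⟨V₁, hV, hloc⟩ := IsLocalRing.exists_factor_valuationRing ψ
  have hlt : ∀ a, V₁.valuation (ψ a) < 1 ↔ a ∈ maximalIdeal R := by
    intro a
    rw [lt_iff, mem_maximalIdeal, mem_nonunits_iff, not_iff_not]
    constructor
    · rintro ⟨h0, h1⟩
      have h2 : IsUnit ((ψ.codRestrict V₁.toSubring hV) a) := by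
        refine isUnit_iff_exists_inv.2 ⟨⟨(ψ a)⁻¹, h1⟩, Subtype.ext ?_⟩
        exact mul_inv_cancel₀ h0
      exact hloc.map_nonunit _ h2
    · intro h1
      obtain ⟨w, hw⟩ := isUnit_iff_exists_inv.1 h1
      have h2 : ψ a * ψ w = 1 := by rw [← map_mul, hw, map_one]
      refine ⟨left_ne_zero_of_mul_eq_one h2, ?_⟩
      rw [inv_eq_of_mul_eq_one_right h2]
      exact hV _
  letI : Algebra R L := ψ.toAlgebra
  letI : Algebra R V₁ := (ψ.codRestrict V₁.toSubring hV).toAlgebra
  haveI : IsScalarTower R V₁ L := IsScalarTower.of_algebraMap_eq fun x => rfl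
  haveI : FaithfulSMul R L := (faithfulSMul_iff_algebraMap_injective R L).2 hψ
  letI : Algebra (FractionRing R) L := FractionRing.liftAlgebra R L
  haveI : IsScalarTower R (FractionRing R) L := FractionRing.isScalarTower_liftAlgebra R L
  haveI : FiniteDimensional (FractionRing R) L := by
    obtain ⟨n, b, hb⟩ := hf
    have h1 : (⊤ : Submodule (FractionRing R) L) =
        Submodule.span (FractionRing R) (Set.range b) := by
      symm
      rw [eq_top_iff]
      rintro z -
      obtain ⟨r, hr, c, hc⟩ := hb z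
      have h2 : ∀ a : R, algebraMap (FractionRing R) L (algebraMap R (FractionRing R) a) =
          ψ a := by
        intro a
        rw [← IsScalarTower.algebraMap_apply R (FractionRing R) L]
        rfl
      have h3 : z = (algebraMap R (FractionRing R) r)⁻¹ • ∑ i,
          (algebraMap R (FractionRing R) (c i)) • b i := by
        simp only [Algebra.smul_def, map_inv₀, h2]
        rw [← hc, ← mul_assoc, inv_mul_cancel₀ hr, one_mul]
      rw [h3]
      exact Submodule.smul_mem _ _ (Submodule.sum_mem _ fun i _ =>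
        Submodule.smul_mem _ _ (Submodule.subset_span ⟨i, rfl⟩))
    refine ⟨?_⟩
    rw [h1]
    exact Submodule.fg_span (Set.finite_range b)
  obtain ⟨hnoe, hfin⟩ := Pool.Agent.Y562.NN.ka R (FractionRing R) L V₁
  obtain ⟨x, hxq, hx0⟩ := Submodule.exists_mem_ne_zero_of_ne_bot hm
  have hφx : ψ x ≠ 0 := fun h => hx0 (hψ (by rw [h, map_zero]))
  refine ⟨V₁, hV, ?_, hlt, ?_⟩
  · have h1 : IsPrincipalIdealRing V₁ := (IsBezout.TFAE (R := V₁)).out 0 1 |>.1 hnoe
    have h2 : ¬ IsField V₁ := by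
      intro h
      obtain ⟨w, hw⟩ := h.mul_inv_cancel (a := ⟨ψ x, hV x⟩)
        (fun h0 => hφx (congrArg Subtype.val h0))
      have h3 : ψ x * (w : L) = 1 := congrArg Subtype.val hw
      refine lt_iff.1 ((hlt x).2 hxq) ⟨hφx, ?_⟩
      rw [inv_eq_of_mul_eq_one_right h3]
      exact w.2
    exact { not_a_field' := fun h0 => h2 ((IsLocalRing.isField_iff_maximalIdeal_eq).2 h0) }
  · have h1 : algebraMap R V₁ x ∈ maximalIdeal V₁ :=
      (V₁.valuation_lt_one_iff ⟨ψ x, hV x⟩).2 ((hlt x).2 hxq)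
    have h2 := hfin (maximalIdeal V₁) x hx0 h1
    obtain ⟨S, hS⟩ := (Module.finite_def (R := R)).1 h2
    obtain ⟨n, b, hb⟩ : ∃ (n : ℕ) (b : Fin n → V₁ ⧸ maximalIdeal V₁),
        (S : Set (V₁ ⧸ maximalIdeal V₁)) = Set.range b :=
      ⟨S.card, fun i => S.equivFin.symm i, by
        ext z
        constructor
        · intro hz
          exact ⟨S.equivFin ⟨z, hz⟩, by simp⟩
        · rintro ⟨i, rfl⟩
          exact (S.equivFin.symm i).2⟩
    suffices H : ∀ z : V₁ ⧸ maximalIdeal V₁, ∃ c : Fin n → R,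
        z = ∑ i, Ideal.Quotient.mk (maximalIdeal V₁) ⟨ψ (c i), hV (c i)⟩ * b i from ⟨n, b, H⟩
    intro z
    have hz : z ∈ Submodule.span R (Set.range b) := by
      rw [← hb, hS]
      exact Submodule.mem_top
    rw [Submodule.mem_span_range_iff_exists_fun] at hz
    obtain ⟨c, hc⟩ := hz
    refine ⟨c, ?_⟩
    rw [← hc]
    refine Finset.sum_congr rfl fun i _ => ?_
    rw [Algebra.smul_def]
    rfl

/-- Discrete valuation rings over a height one prime ideal; the extension of residue fields is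
finite (Krull and Akizuki). -/
theorem exists_dvr {O L : Type u} [CommRing O] [IsDomain O] [IsNoetherianRing O] [Field L]
    (φ : O →+* L) (hφ : Function.Injective φ) (hf : FinOver φ) (q : Ideal O) [hq : q.IsPrime]
    (hq0 : q ≠ ⊥) (hq1 : q.height ≤ 1) :
    ∃ (V₁ : ValuationSubring L) (hle : ∀ a, φ a ∈ V₁), IsDiscreteValuationRing V₁ ∧
      (∀ a, V₁.valuation (φ a) < 1 ↔ a ∈ q) ∧
      ∃ (n : ℕ) (b : Fin n → ResidueField V₁), ∀ z : ResidueField V₁, ∃ r : O, r ∉ q ∧
        ∃ c : Fin n → O, residue V₁ ⟨φ r, hle r⟩ * z = ∑ i, residue V₁ ⟨φ (c i), hle (c i)⟩ * b i := by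
  classical
  have hu : ∀ s : q.primeCompl, IsUnit (φ s) := fun s => by
    rw [isUnit_iff_ne_zero]
    intro h0
    have h1 : (s : O) = 0 := hφ (by rw [h0, map_zero])
    exact s.2 (by rw [h1]; exact q.zero_mem)
  let ψ : Localization.AtPrime q →+* L := IsLocalization.lift hu
  have hψ : Function.Injective ψ := by
    rw [IsLocalization.lift_injective_iff]
    intro x y
    constructor
    · intro h
      exact congrArg φ (IsLocalization.injective _ q.primeCompl_le_nonZeroDivisors h)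
    · intro h
      rw [hφ h]
  have hψa : ∀ a, ψ (algebraMap O _ a) = φ a := fun a => IsLocalization.lift_eq hu a
  have hdim : Ring.KrullDimLE 1 (Localization.AtPrime q) := by
    rw [Ring.krullDimLE_iff, IsLocalization.AtPrime.ringKrullDim_eq_height q]
    exact_mod_cast hq1
  have hmem : ∀ a, algebraMap O (Localization.AtPrime q) a ∈
      maximalIdeal (Localization.AtPrime q) ↔ a ∈ q := fun a =>
    IsLocalization.AtPrime.to_map_mem_maximal_iff _ q a
  have hfψ : FinOver ψ := by
    obtain ⟨n, b, hb⟩ := hf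
    refine ⟨n, b, fun z => ?_⟩
    obtain ⟨r, hr, c, hc⟩ := hb z
    exact ⟨algebraMap O _ r, by rw [hψa]; exact hr, fun i => algebraMap O _ (c i), by
      simp only [hψa]; exact hc⟩
  obtain ⟨x, hxq, hx0⟩ := Submodule.exists_mem_ne_zero_of_ne_bot hq0
  obtain ⟨V₁, hV, hdvr, hlt, n, b, hb⟩ := ka_local ψ hψ hfψ (fun h0 => by
    have h1 := (hmem x).2 hxq
    rw [h0, Ideal.mem_bot] at h1
    exact hx0 (IsLocalization.injective _ q.primeCompl_le_nonZeroDivisors
      (by rw [h1, map_zero])))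
  have hle : ∀ a, φ a ∈ V₁ := fun a => by rw [← hψa]; exact hV _
  refine ⟨V₁, hle, hdvr, fun a => by rw [← hψa, hlt, hmem], n, b, fun z => ?_⟩
  obtain ⟨c, hc⟩ := hb z
  obtain ⟨s, hs⟩ := IsLocalization.exist_integer_multiples_of_finset q.primeCompl
    (Finset.univ.image c)
  have h3 : ∀ i, ∃ a : O, algebraMap O (Localization.AtPrime q) a = (s : O) • c i := fun i =>
    hs (c i) (Finset.mem_image_of_mem _ (Finset.mem_univ i))
  choose a ha using h3
  refine ⟨s, s.2, a, ?_⟩
  have h6 : ∀ i, residue V₁ ⟨φ (a i), hle (a i)⟩ =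
      residue V₁ ⟨φ s, hle s⟩ * residue V₁ ⟨ψ (c i), hV (c i)⟩ := by
    intro i
    rw [← map_mul]
    congr 1
    apply Subtype.ext
    change φ (a i) = φ s * ψ (c i)
    rw [← hψa, ha, Algebra.smul_def, map_mul, hψa]
  rw [hc, Finset.mul_sum]
  refine Finset.sum_congr rfl fun i _ => ?_
  rw [h6, mul_assoc]

end Pool.Agent.Q40.GV
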