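import Pool.Agent.Q40.GV.Dvr

set_option autoImplicit false
set_option linter.style.haveILetI false
set_option linter.overlappingInstances false
set_option linter.unusedVariables false

/-- Cancellation of one in dimensions. -/
theorem Pool.Agent.Q40.GV.le_of_add_one {d : WithBot ℕ∞} {n : ℕ}
    (h : d + 1 ≤ (n : WithBot ℕ∞) + 1) : d ≤ n := by
  induction d using WithBot.recBotCoe with
  | bot => exact bot_le
  | coe a =>
    have h1 : a + 1 ≤ (n : ℕ∞) + 1 := by exact_mod_cast h
    have h2 : a ≤ (n : ℕ∞) := by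
      induction a using ENat.recTopCoe with
      | top =>
        rw [top_add] at h1
        exact absurd (top_le_iff.1 h1) (by exact_mod_cast ENat.coe_ne_top (n + 1))
      | coe a =>
        have h3 : a + 1 ≤ n + 1 := by exact_mod_cast h1
        exact_mod_cast (by omega : a ≤ n)
    exact_mod_cast h2

universe u

namespace Pool.Agent.Q40.GV

open IsLocalRing Polynomial Pool.Agent.TH188.QS Pool.Agent.W418.LU2

theorem field_case {O L : Type u} [CommRing O] [IsDomain O] [IsLocalRing O] [Field L]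
    (φ : O →+* L) (hf : FinOver φ) (hm : maximalIdeal O = ⊥) :
    DR 0 (⊤ : ValuationSubring L) ∧ Dom φ (⊤ : ValuationSubring L) ∧
      AlgRes φ (⊤ : ValuationSubring L) := by
  refine ⟨rfl, ⟨fun a => ValuationSubring.mem_top _, fun a ha => ?_⟩, fun z _ => ?_⟩
  · rw [hm, Ideal.mem_bot] at ha
    rw [ha, map_zero, map_zero]
    exact zero_lt_one
  · letI : Algebra O L := φ.toAlgebra
    obtain ⟨n, b, hb⟩ := hf
    have h1 : (⊤ : Submodule O L) = Submodule.span O (Set.range b) := by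
      symm
      rw [eq_top_iff]
      rintro z -
      obtain ⟨r, hr, c, hc⟩ := hb z
      have hr0 : IsUnit r := by
        by_contra h
        have h2 : r ∈ maximalIdeal O := h
        rw [hm, Ideal.mem_bot] at h2
        exact hr (by rw [h2, map_zero])
      obtain ⟨s, hs⟩ := isUnit_iff_exists_inv'.1 hr0
      have h3 : z = s • ∑ i, c i • b i := by
        have h4 : ∀ (a : O) (w : L), a • w = φ a * w := fun a w => rfl
        simp only [h4]
        rw [← hc, ← mul_assoc, ← map_mul, hs, map_one, one_mul]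
      rw [h3]
      exact Submodule.smul_mem _ _ (Submodule.sum_mem _ fun i _ =>
        Submodule.smul_mem _ _ (Submodule.subset_span ⟨i, rfl⟩))
    haveI : Module.Finite O L := ⟨by rw [h1]; exact Submodule.fg_span (Set.finite_range b)⟩
    obtain ⟨P, hP, hPz⟩ := Algebra.IsIntegral.isIntegral (R := O) z
    refine ⟨P, hP, ?_⟩
    have h2 : P.eval₂ φ z = 0 := hPz
    rw [h2, map_zero]
    exact zero_lt_one

/-- Domination by composites. -/
theorem comp_dom {O L : Type u} [CommRing O] [IsLocalRing O] [Field L]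
    (φ : O →+* L) (q : Ideal O) (hq : q ≠ ⊤) (V₁ : ValuationSubring L) (hle : ∀ a, φ a ∈ V₁)
    (hlt : ∀ a, V₁.valuation (φ a) < 1 ↔ a ∈ q) (φ' : O ⧸ q →+* ResidueField V₁)
    (hφ' : ∀ a, φ' (Ideal.Quotient.mk q a) = residue V₁ ⟨φ a, hle a⟩) [IsLocalRing (O ⧸ q)]
    (W : ValuationSubring (ResidueField V₁)) (hW : Dom φ' W) : Dom φ (comp V₁ W) := by
  refine ⟨fun a => ⟨hle a, ?_⟩, fun a ha => comp_lt (hle a) ?_⟩
  · rw [← hφ']
    exact hW.le _
  · rw [← hφ']
    refine hW.lt _ ?_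
    rw [mem_maximalIdeal, mem_nonunits_iff]
    intro hu
    obtain ⟨w, hw⟩ := isUnit_iff_exists_inv.1 hu
    obtain ⟨w, rfl⟩ := Ideal.Quotient.mk_surjective w
    rw [← map_mul, ← map_one (Ideal.Quotient.mk q), Ideal.Quotient.eq] at hw
    have h1 : q ≤ maximalIdeal O := IsLocalRing.le_maximalIdeal hq
    have h2 : (1 : O) ∈ maximalIdeal O := by
      have h3 := Ideal.sub_mem _ (Ideal.mul_mem_right w _ ha) (h1 hw)
      rwa [sub_sub_cancel] at h3
    exact (Ideal.ne_top_iff_one _).1 (maximalIdeal.isMaximal O).ne_top h2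

theorem comp_alg {O L : Type u} [CommRing O] [Field L]
    (φ : O →+* L) (q : Ideal O) (V₁ : ValuationSubring L) (hle : ∀ a, φ a ∈ V₁)
    (φ' : O ⧸ q →+* ResidueField V₁)
    (hφ' : ∀ a, φ' (Ideal.Quotient.mk q a) = residue V₁ ⟨φ a, hle a⟩)
    (W : ValuationSubring (ResidueField V₁)) (hW : AlgRes φ' W) : AlgRes φ (comp V₁ W) := by
  rintro z ⟨hz, hzW⟩
  obtain ⟨P', hP', h1⟩ := hW _ hzW
  obtain ⟨P, rfl, -, hP⟩ := lifts_and_natDegree_eq_and_monic (f := Ideal.Quotient.mk q)
    ((lifts_iff_coeff_lifts _).2 fun n => Ideal.Quotient.mk_surjective _) hP'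
  refine ⟨P, hP, ?_⟩
  let φ₁ : O →+* V₁ := φ.codRestrict V₁.toSubring hle
  have h2 : ((P.eval₂ φ₁ (⟨z, hz⟩ : V₁) : V₁) : L) = P.eval₂ φ z :=
    Polynomial.hom_eval₂ P φ₁ V₁.subtype ⟨z, hz⟩
  have h3 : residue V₁ (P.eval₂ φ₁ ⟨z, hz⟩) = (P.map (Ideal.Quotient.mk q)).eval₂ φ'
      (residue V₁ ⟨z, hz⟩) := by
    rw [Polynomial.eval₂_map, Polynomial.hom_eval₂]
    congr 1
    ext a
    exact (hφ' a).symm
  rw [← h2]
  refine comp_lt (P.eval₂ φ₁ ⟨z, hz⟩).2 ?_
  have h4 : (⟨_, (P.eval₂ φ₁ ⟨z, hz⟩).2⟩ : V₁) = P.eval₂ φ₁ ⟨z, hz⟩ := rfl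
  rw [h4, h3]
  exact h1

/-- A noetherian local domain is dominated by a composite of discrete valuation rings with
algebraic residue field. -/
theorem exists_zd (n : ℕ) : ∀ {O L : Type u} [CommRing O] [IsDomain O] [IsLocalRing O]
    [IsNoetherianRing O] [Field L] (φ : O →+* L), Function.Injective φ → FinOver φ →
    ringKrullDim O ≤ n →
    ∃ (m : ℕ) (V : ValuationSubring L), DR m V ∧ Dom φ V ∧ AlgRes φ V := by
  classical
  induction n with
  | zero =>
    intro O L _ _ _ _ _ φ hφ hf hd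
    have hm : maximalIdeal O = ⊥ := by
      by_contra hm
      obtain ⟨x, hxm, hx0⟩ := Submodule.exists_mem_ne_zero_of_ne_bot hm
      have h1 : ringKrullDim (O ⧸ Ideal.span {x}) + 1 ≤ ringKrullDim O :=
        ringKrullDim_quotient_succ_le_of_nonZeroDivisor (mem_nonZeroDivisors_of_ne_zero hx0)
      have h2 : Nontrivial (O ⧸ Ideal.span {x}) := Ideal.Quotient.nontrivial_iff.2 (fun h => by
        have h3 : Ideal.span {x} ≤ maximalIdeal O := (Ideal.span_singleton_le_iff_mem _).2 hxm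
        rw [h] at h3
        exact (maximalIdeal.isMaximal O).ne_top (top_le_iff.1 h3))
      have h3 : (0 : WithBot ℕ∞) ≤ ringKrullDim (O ⧸ Ideal.span {x}) :=
        ringKrullDim_nonneg_of_nontrivial
      have h4 : (1 : WithBot ℕ∞) ≤ 0 := by
        calc (1 : WithBot ℕ∞) = 0 + 1 := (zero_add 1).symm
          _ ≤ ringKrullDim (O ⧸ Ideal.span {x}) + 1 := by gcongr
          _ ≤ ringKrullDim O := h1
          _ ≤ 0 := by exact_mod_cast hd
      exact absurd h4 (by decide)
    exact ⟨0, ⊤, field_case φ hf hm⟩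
  | succ n ih =>
    intro O L _ _ _ _ _ φ hφ hf hd
    by_cases hm : maximalIdeal O = ⊥
    · exact ⟨0, ⊤, field_case φ hf hm⟩
    · obtain ⟨x, hxm, hx0⟩ := Submodule.exists_mem_ne_zero_of_ne_bot hm
      obtain ⟨q, hqm, hqle⟩ := Ideal.exists_minimalPrimes_le
        ((Ideal.span_singleton_le_iff_mem _).2 hxm)
      have hq : q.IsPrime := hqm.1.1
      have hxq : x ∈ q := hqm.1.2 (Ideal.mem_span_singleton_self x)
      have hq0 : q ≠ ⊥ := fun h => hx0 (by rw [h] at hxq; exact hxq)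
      have hq1 : q.height ≤ 1 :=
        Ideal.height_le_one_of_isPrincipal_of_mem_minimalPrimes (Ideal.span {x}) q hqm
      obtain ⟨V₁, hle, hdvr, hlt, n', b, hb⟩ := exists_dvr φ hφ hf q hq0 hq1
      let φ₁ : O →+* V₁ := φ.codRestrict V₁.toSubring hle
      let φ' : O ⧸ q →+* ResidueField V₁ := Ideal.Quotient.lift q ((residue V₁).comp φ₁)
        (fun a ha => residue_eq_zero_of_lt (hle a) ((hlt a).2 ha))
      have hφ' : ∀ a, φ' (Ideal.Quotient.mk q a) = residue V₁ ⟨φ a, hle a⟩ := fun a => rfl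
      have hloc : IsLocalRing (O ⧸ q) :=
        IsLocalRing.of_surjective' (Ideal.Quotient.mk q) Ideal.Quotient.mk_surjective
      have hker : ∀ a, residue V₁ ⟨φ a, hle a⟩ = 0 → a ∈ q := by
        intro a ha
        rw [residue_eq_zero_iff] at ha
        exact (hlt a).1 ((V₁.valuation_lt_one_iff ⟨φ a, hle a⟩).1 ha)
      have hinj : Function.Injective φ' := by
        rw [injective_iff_map_eq_zero]
        intro a ha
        obtain ⟨a, rfl⟩ := Ideal.Quotient.mk_surjective a
        rw [Ideal.Quotient.eq_zero_iff_mem]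
        exact hker a ha
      have hfin : FinOver φ' := by
        refine ⟨n', b, fun z => ?_⟩
        obtain ⟨r, hr, c, hc⟩ := hb z
        refine ⟨Ideal.Quotient.mk q r, fun h0 => hr (hker r h0), fun i => Ideal.Quotient.mk q (c i), ?_⟩
        exact hc
      have hdim : ringKrullDim (O ⧸ q) ≤ n := by
        have h1 : ringKrullDim (O ⧸ Ideal.span {x}) + 1 ≤ ringKrullDim O :=
          ringKrullDim_quotient_succ_le_of_nonZeroDivisor (mem_nonZeroDivisors_of_ne_zero hx0)
        have h2 : ringKrullDim (O ⧸ q) ≤ ringKrullDim (O ⧸ Ideal.span {x}) :=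
          ringKrullDim_le_of_surjective (Ideal.Quotient.factor hqm.1.2)
            (Ideal.Quotient.factor_surjective hqm.1.2)
        have h3 : ringKrullDim (O ⧸ q) + 1 ≤ (n : WithBot ℕ∞) + 1 :=
          (add_le_add_left h2 1).trans (h1.trans (by exact_mod_cast hd))
        exact le_of_add_one h3
      obtain ⟨m, W, hDR, hdom, halg⟩ := ih φ' hinj hfin hdim
      exact ⟨m + 1, comp V₁ W, ⟨V₁, W, hdvr, hDR, fun z => Iff.rfl⟩,
        comp_dom φ q hq.ne_top V₁ hle hlt φ' hφ' W hdom, comp_alg φ q V₁ hle φ' hφ' W halg⟩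

end Pool.Agent.Q40.GV
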