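import Pool.Agent.Q40.GV.Nd
import Pool.Agent.Q37.Dim.Basic

set_option autoImplicit false
set_option linter.style.haveILetI false
set_option linter.unusedVariables false

namespace Pool.Agent.Q40.GV

open IsLocalRing Polynomial Pool.Agent.TH188.QS Pool.Agent.W418.LU2 Q37.Dim

/-- Algebraic extensions have the same transcendence degree. -/
lemma trdeg_of_alg {k A B : Type} [Field k] [CommRing A] [IsDomain A] [CommRing B] [IsDomain B]
    [Algebra k A] [Algebra k B] (f : A →ₐ[k] B) (hf : Function.Injective f)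
    (h : ∀ b : B, ∃ P : A[X], P ≠ 0 ∧ P.eval₂ (f : A →+* B) b = 0) :
    Algebra.trdeg k B = Algebra.trdeg k A := by
  letI : Algebra A B := f.toRingHom.toAlgebra
  haveI : IsScalarTower k A B := IsScalarTower.of_algebraMap_eq fun x => (f.commutes x).symm
  haveI : FaithfulSMul A B := (faithfulSMul_iff_algebraMap_injective _ _).2 hf
  haveI : Algebra.IsAlgebraic A B := ⟨fun b => by
    obtain ⟨P, hP, h1⟩ := h b
    exact ⟨P, hP, h1⟩⟩
  rw [← _root_.trdeg_add_eq k A (A := B), _root_.trdeg_eq_zero (R := A) (A := B), add_zero]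

/-- Prime ideals of height one. -/
lemma td_of_height {k A : Type} [Field k] [CommRing A] [IsDomain A] [Algebra k A]
    [Algebra.FiniteType k A] (P : Ideal A) [hP : P.IsPrime] (h : P.height ≤ 1) :
    td k A ≤ td k (A ⧸ P) + 1 := by
  by_cases h0 : P = ⊥
  · subst h0
    rw [td_congr (AlgEquiv.quotientBot k A).symm]
    exact Nat.le_succ _
  · obtain ⟨b, hb, hb0⟩ := Submodule.exists_mem_ne_zero_of_ne_bot h0
    refine td_le_of_minimal (a := b) P ⟨⟨hP, (Ideal.span_singleton_le_iff_mem _).2 hb⟩, ?_⟩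
    rintro Q ⟨hQ, hbQ⟩ hQP
    by_contra hPQ
    have hlt : Q < P := lt_of_le_not_ge hQP hPQ
    have h1 := Ideal.height_add_one_le_of_lt_of_isPrime hlt
    have h2 : Q.height = 0 := by
      have h3 : Q.height + 1 ≤ 0 + 1 := by simpa using h1.trans h
      exact le_antisymm ((ENat.add_le_add_iff_right (by simp)).1 h3) bot_le
    rw [Ideal.height_eq_zero_iff_eq_bot] at h2
    rw [h2, Ideal.span_singleton_le_iff_mem, Ideal.mem_bot] at hbQ
    exact hb0 hbQ

/-- Chains of two inclusions. -/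
lemma td_of_chain {k A : Type} [Field k] [CommRing A] [IsDomain A] [Algebra k A]
    [Algebra.FiniteType k A] (p₁ p₂ p : Ideal A) [h1 : p₁.IsPrime] [h2 : p₂.IsPrime]
    (h01 : p₁ ≠ ⊥) (h12 : p₁ < p₂) (h23 : p₂ ≤ p) : td k (A ⧸ p) + 2 ≤ td k A := by
  have hA := td_quotient_lt (K := k) p₁ h01
  have hmap : (p₂.map (Ideal.Quotient.mkₐ k p₁)).IsPrime :=
    Ideal.map_isPrime_of_surjective Ideal.Quotient.mk_surjective (by
      have : RingHom.ker (Ideal.Quotient.mk p₁ : A →+* A ⧸ p₁) = p₁ := Ideal.mk_ker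
      intro a ha
      exact h12.le (this.le ha))
  have hne : p₂.map (Ideal.Quotient.mkₐ k p₁) ≠ ⊥ := by
    intro h
    obtain ⟨y, hy, hy1⟩ := SetLike.exists_of_lt h12
    have h3 : Ideal.Quotient.mkₐ k p₁ y ∈ p₂.map (Ideal.Quotient.mkₐ k p₁) :=
      Ideal.mem_map_of_mem _ hy
    rw [h, Ideal.mem_bot] at h3
    exact hy1 (Ideal.Quotient.eq_zero_iff_mem.1 h3)
  have hB := td_quotient_lt (K := k) _ hne
  rw [td_congr (DoubleQuot.quotQuotEquivQuotOfLEₐ k h12.le)] at hB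
  have hC : td k (A ⧸ p) ≤ td k (A ⧸ p₂) :=
    td_le_of_surjective (Ideal.Quotient.factorₐ k h23) (Ideal.Quotient.factor_surjective h23)
  omega

/-- The dimension formula for localizations of finitely generated domains over a field, in the
form which is needed here. -/
theorem heightTwo_of_field {k K : Type} [Field k] [Field K] [Algebra k K] {O : Subring K}
    [IsNoetherianRing O] {T₀ : Set K} (hT₀ : T₀.Finite)
    (hAO : ∀ a ∈ Algebra.adjoin k T₀, a ∈ O)
    (hOA : ∀ b ∈ O, ∃ a ∈ Algebra.adjoin k T₀, ∃ s ∈ Algebra.adjoin k T₀, s ≠ 0 ∧ s⁻¹ ∈ O ∧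
      b = a * s⁻¹)
    (hdim : (2 : WithBot ℕ∞) ≤ ringKrullDim O) : HeightTwo O := by
  classical
  intro T C hT hCdef M hM hmM x hx hmin
  have hCn : IsNoetherianRing C := hCdef ▸ noeth_cl hT
  have hOC : O ≤ C := by
    rw [hCdef]
    exact fun a ha => Subring.subset_closure (Or.inl ha)
  have hMh : M.height ≤ 1 :=
    Ideal.height_le_one_of_isPrincipal_of_mem_minimalPrimes (Ideal.span {x}) M hmin
  let A := Algebra.adjoin k T₀
  let B := Algebra.adjoin k (T₀ ∪ T)
  have hAB : A ≤ B := Algebra.adjoin_mono Set.subset_union_left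
  have hAO : ∀ a ∈ A, a ∈ O := hAO
  have hBC : ∀ b ∈ B, b ∈ C := by
    intro b hb
    have h1 : (B.toSubring : Subring K) ≤ C := by
      have h2 : B.toSubring = Subring.closure (Set.range (algebraMap k K) ∪ (T₀ ∪ T)) :=
        Algebra.adjoin_eq_ring_closure _
      rw [h2, Subring.closure_le]
      rintro z (⟨c, rfl⟩ | hz | hz)
      · exact hOC (hAO _ (A.algebraMap_mem c))
      · exact hOC (hAO _ (Algebra.subset_adjoin hz))
      · rw [hCdef]
        exact Subring.subset_closure (Or.inr hz)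
    exact h1 hb
  haveI : Algebra.FiniteType k A :=
    (Subalgebra.fg_iff_finiteType _).1 ⟨hT₀.toFinset, by rw [hT₀.coe_toFinset]⟩
  haveI : Algebra.FiniteType k B :=
    (Subalgebra.fg_iff_finiteType _).1 ⟨(hT₀.union hT).toFinset, by rw [(hT₀.union hT).coe_toFinset]⟩
  -- the localization
  let ι : B →+* C := B.toSubring.subtype.codRestrict C fun b => hBC b b.2
  letI : Algebra B C := ι.toAlgebra
  let S : Submonoid B :=
    { carrier := {s | (s : K) ∈ A ∧ (s : K) ≠ 0 ∧ (s : K)⁻¹ ∈ O}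
      mul_mem' := by
        rintro a b ⟨ha1, ha2, ha3⟩ ⟨hb1, hb2, hb3⟩
        refine ⟨A.mul_mem ha1 hb1, mul_ne_zero ha2 hb2, ?_⟩
        change ((a : K) * (b : K))⁻¹ ∈ O
        rw [mul_inv]
        exact O.mul_mem ha3 hb3
      one_mem' := ⟨A.one_mem, one_ne_zero, by
        change ((1 : B) : K)⁻¹ ∈ O
        rw [OneMemClass.coe_one, inv_one]
        exact O.one_mem⟩ }
  have hfr : ∀ c ∈ C, ∃ b ∈ B, ∃ s ∈ A, s ≠ 0 ∧ s⁻¹ ∈ O ∧ c = b * s⁻¹ := by
    intro c hc
    rw [hCdef] at hc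
    induction hc using Subring.closure_induction with
    | mem c hc =>
      rcases hc with hc | hc
      · obtain ⟨a, ha, s, hs, hs0, hsO, h⟩ := hOA c hc
        exact ⟨a, hAB ha, s, hs, hs0, hsO, h⟩
      · exact ⟨c, Algebra.subset_adjoin (Or.inr hc), 1, A.one_mem, one_ne_zero, by
          rw [inv_one]; exact O.one_mem, by rw [inv_one, mul_one]⟩
    | zero => exact ⟨0, B.zero_mem, 1, A.one_mem, one_ne_zero, by
          rw [inv_one]; exact O.one_mem, by rw [inv_one, mul_one]⟩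
    | one => exact ⟨1, B.one_mem, 1, A.one_mem, one_ne_zero, by
          rw [inv_one]; exact O.one_mem, by rw [inv_one, mul_one]⟩
    | add c d _ _ ihc ihd =>
      obtain ⟨a, ha, s, hs, hs0, hsO, rfl⟩ := ihc
      obtain ⟨b, hb, t, ht, ht0, htO, rfl⟩ := ihd
      exact ⟨a * t + b * s, B.add_mem (B.mul_mem ha (hAB ht)) (B.mul_mem hb (hAB hs)), s * t,
        A.mul_mem hs ht, mul_ne_zero hs0 ht0, by rw [mul_inv]; exact O.mul_mem hsO htO, by
          field_simp⟩
    | neg c _ ihc =>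
      obtain ⟨a, ha, s, hs, hs0, hsO, rfl⟩ := ihc
      exact ⟨-a, B.neg_mem ha, s, hs, hs0, hsO, by rw [neg_mul]⟩
    | mul c d _ _ ihc ihd =>
      obtain ⟨a, ha, s, hs, hs0, hsO, rfl⟩ := ihc
      obtain ⟨b, hb, t, ht, ht0, htO, rfl⟩ := ihd
      exact ⟨a * b, B.mul_mem ha hb, s * t, A.mul_mem hs ht, mul_ne_zero hs0 ht0, by
        rw [mul_inv]; exact O.mul_mem hsO htO, by field_simp⟩
  haveI : IsLocalization S C :=
    { map_units := by
        rintro ⟨s, hs1, hs2, hs3⟩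
        rw [isUnit_iff_exists_inv]
        exact ⟨⟨_, hOC hs3⟩, Subtype.ext (mul_inv_cancel₀ hs2)⟩
      surj := by
        rintro ⟨c, hc⟩
        obtain ⟨b, hb, s, hs, hs0, hsO, h⟩ := hfr c hc
        refine ⟨(⟨b, hb⟩, ⟨⟨s, hAB hs⟩, hs, hs0, hsO⟩), Subtype.ext ?_⟩
        change c * s = b
        rw [h, mul_assoc, inv_mul_cancel₀ hs0, mul_one]
      exists_of_eq := by
        intro a b h
        refine ⟨1, ?_⟩
        have h1 : (a : K) = b := congrArg (fun z : C => (z : K)) h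
        rw [Subtype.ext h1] }
  let P : Ideal B := M.under B
  haveI hP : P.IsPrime := inferInstance
  have hPh : P.height ≤ 1 := by
    have h1 : P.height = M.height := IsLocalization.height_under S M
    rw [h1]; exact hMh
  have h1 := td_of_height (k := k) P hPh
  have h2 : td k A ≤ td k B :=
    td_le_of_injective (Subalgebra.inclusion hAB) (Subalgebra.inclusion_injective hAB)
  -- the ideals of `A` and `O`
  let m : Ideal O := M.comap (Subring.inclusion hOC)
  haveI hm : m.IsPrime := inferInstance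
  let ιA : A →+* O := A.toSubring.subtype.codRestrict O fun a => hAO a a.2
  let p : Ideal A := m.comap ιA
  haveI hp : p.IsPrime := inferInstance
  letI : Field (C ⧸ M) := Ideal.Quotient.field M
  letI : Algebra k O := (ιA.comp (algebraMap k A)).toAlgebra
  letI : Algebra k C := ((Subring.inclusion hOC).comp (algebraMap k O)).toAlgebra
  let fA : A →ₐ[k] O := { ιA with commutes' := fun r => rfl }
  let fO : O →ₐ[k] C := { Subring.inclusion hOC with commutes' := fun r => rfl }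
  let fB : B →ₐ[k] C := { ι with commutes' := fun r => Subtype.ext rfl }
  let gA : (A ⧸ p) →ₐ[k] O ⧸ m := Ideal.quotientMapₐ m fA le_rfl
  let gO : (O ⧸ m) →ₐ[k] C ⧸ M := Ideal.quotientMapₐ M fO le_rfl
  let gB : (B ⧸ P) →ₐ[k] C ⧸ M := Ideal.quotientMapₐ M fB le_rfl
  have hgA : Function.Injective gA := Ideal.quotientMap_injective' (H := le_rfl) le_rfl
  have hgO : Function.Injective gO := Ideal.quotientMap_injective' (H := le_rfl) le_rfl
  have hgB : Function.Injective gB := Ideal.quotientMap_injective' (H := le_rfl) le_rfl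
  have hsm : ∀ s : A, (s : K) ≠ 0 → (s : K)⁻¹ ∈ O → s ∉ p := by
    intro s hs0 hsO hs
    have h3 : (⟨s, hOC (hAO s s.2)⟩ : C) ∈ M := hs
    have h4 := M.mul_mem_left ⟨_, hOC hsO⟩ h3
    have h5 : (⟨_, hOC hsO⟩ : C) * ⟨s, hOC (hAO s s.2)⟩ = 1 := Subtype.ext (inv_mul_cancel₀ hs0)
    rw [h5] at h4
    exact hM.ne_top ((Ideal.eq_top_iff_one M).2 h4)
  have h3 : Algebra.trdeg k (O ⧸ m) = Algebra.trdeg k (A ⧸ p) := by
    refine trdeg_of_alg gA hgA fun z => ?_
    obtain ⟨z, rfl⟩ := Ideal.Quotient.mk_surjective z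
    obtain ⟨a, ha, s, hs, hs0, hsO, h⟩ := hOA z z.2
    refine ⟨Polynomial.C (Ideal.Quotient.mk p ⟨s, hs⟩) * X -
      Polynomial.C (Ideal.Quotient.mk p ⟨a, ha⟩), ?_, ?_⟩
    · intro h0
      have h4 := congrArg (fun Q => Polynomial.coeff Q 1) h0
      simp only [coeff_sub, coeff_C_mul, coeff_X_one, mul_one, coeff_C_succ, sub_zero,
        coeff_zero] at h4
      exact hsm ⟨s, hs⟩ hs0 hsO (Ideal.Quotient.eq_zero_iff_mem.1 h4)
    · rw [eval₂_sub, eval₂_mul, eval₂_C, eval₂_X, eval₂_C, sub_eq_zero]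
      change Ideal.Quotient.mk m (ιA ⟨s, hs⟩) * Ideal.Quotient.mk m z =
        Ideal.Quotient.mk m (ιA ⟨a, ha⟩)
      rw [← map_mul]
      congr 1
      apply Subtype.ext
      change s * (z : K) = a
      rw [h, mul_comm a, ← mul_assoc, mul_inv_cancel₀ hs0, one_mul]
  have h4 : Algebra.trdeg k (C ⧸ M) = Algebra.trdeg k (O ⧸ m) := by
    refine trdeg_of_alg gO hgO fun z => ?_
    obtain ⟨z, rfl⟩ := Ideal.Quotient.mk_surjective z
    obtain ⟨Q, hQ, hQz⟩ := alg_of_max hOC hT hCdef M hmM z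
    refine ⟨Q.map (Ideal.Quotient.mk m), (hQ.map _).ne_zero, ?_⟩
    rw [eval₂_map]
    have h5 : ((gO : (O ⧸ m) →+* C ⧸ M).comp (Ideal.Quotient.mk m)) =
        (Ideal.Quotient.mk M).comp (Subring.inclusion hOC) := by
      ext a; rfl
    rw [h5, ← hom_eval₂, Ideal.Quotient.eq_zero_iff_mem]
    exact hQz
  have h5 : Algebra.trdeg k (B ⧸ P) ≤ Algebra.trdeg k (A ⧸ p) := by
    rw [← h3, ← h4]
    exact trdeg_le_of_injective gB hgB
  have h6 : td k (B ⧸ P) ≤ td k (A ⧸ p) := by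
    have h7 : Algebra.trdeg k (B ⧸ P) ≤ (td k (A ⧸ p) : ℕ) := by rw [td_cast]; exact h5
    exact td_le_of_le h7
  -- the chain of primes
  obtain ⟨Pa, Pb, Pc, hab, hbc⟩ : ∃ a b c : PrimeSpectrum O, a < b ∧ b < c := by
    obtain ⟨l, hl⟩ := (Order.le_krullDim_iff (n := 2)).1 (by exact_mod_cast hdim)
    exact ⟨l ⟨0, by omega⟩, l ⟨1, by omega⟩, l ⟨2, by omega⟩,
      l.strictMono (by simp [Fin.lt_def]), l.strictMono (by simp [Fin.lt_def])⟩
  let p₁ : Ideal A := Pb.asIdeal.comap ιA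
  let p₂ : Ideal A := Pc.asIdeal.comap ιA
  haveI hp₁ : p₁.IsPrime := inferInstance
  haveI hp₂ : p₂.IsPrime := inferInstance
  have hnum : ∀ y : O, ∃ (a : A) (s : A), (s : K) ≠ 0 ∧ ∃ hsO : (s : K)⁻¹ ∈ O,
      ιA a = y * ιA s ∧ y = ιA a * ⟨_, hsO⟩ := by
    intro y
    obtain ⟨a, ha, s, hs, hs0, hsO, h⟩ := hOA y y.2
    refine ⟨⟨a, ha⟩, ⟨s, hs⟩, hs0, hsO, Subtype.ext ?_, Subtype.ext h⟩
    change a = (y : K) * s
    rw [h, mul_assoc, inv_mul_cancel₀ hs0, mul_one]
  have h01 : p₁ ≠ ⊥ := by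
    obtain ⟨y, hyb, hya⟩ := SetLike.exists_of_lt (show Pa.asIdeal < Pb.asIdeal from hab)
    obtain ⟨a, s, hs0, hsO, h8, h9⟩ := hnum y
    intro h0
    have h10 : a ∈ p₁ := by
      change ιA a ∈ Pb.asIdeal
      rw [h8]
      exact Ideal.mul_mem_right _ _ hyb
    rw [h0, Ideal.mem_bot] at h10
    rw [h10, map_zero, zero_mul] at h9
    exact hya (by rw [h9]; exact Pa.asIdeal.zero_mem)
  have h12 : p₁ < p₂ := by
    obtain ⟨y, hyc, hyb⟩ := SetLike.exists_of_lt (show Pb.asIdeal < Pc.asIdeal from hbc)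
    obtain ⟨a, s, hs0, hsO, h8, h9⟩ := hnum y
    refine lt_of_le_of_ne (Ideal.comap_mono hbc.le) fun h0 => hyb ?_
    have h10 : a ∈ p₂ := by
      change ιA a ∈ Pc.asIdeal
      rw [h8]
      exact Ideal.mul_mem_right _ _ hyc
    rw [← h0] at h10
    rw [h9]
    exact Ideal.mul_mem_right _ _ h10
  have h23 : p₂ ≤ p := by
    intro a ha
    change (⟨a, hOC (hAO a a.2)⟩ : C) ∈ M
    by_cases ha0 : (a : K) = 0
    · have h11 : (⟨a, hOC (hAO a a.2)⟩ : C) = 0 := Subtype.ext ha0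
      rw [h11]
      exact M.zero_mem
    · obtain ⟨h10, h11⟩ := hmM a (hAO a a.2) ha0 (fun h12 => by
        have h13 := Pc.asIdeal.mul_mem_left ⟨_, h12⟩ (show ιA a ∈ Pc.asIdeal from ha)
        have h14 : (⟨_, h12⟩ : O) * ιA a = 1 := Subtype.ext (inv_mul_cancel₀ ha0)
        rw [h14] at h13
        exact Pc.2.ne_top ((Ideal.eq_top_iff_one _).2 h13))
      exact h11
  have h13 := td_of_chain (k := k) p₁ p₂ p h01 h12 h23
  omega

end Pool.Agent.Q40.GV
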