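import Pool.Agent.Q40.GV.Field
import Pool.Agent.TH188.QS.Bases3

set_option autoImplicit false
set_option linter.style.haveILetI false
set_option linter.unusedVariables false

namespace Pool.Agent.Q40.GV

open IsLocalRing Polynomial Pool.Agent.TH188.QS Pool.Agent.W418.LU2

universe u

/-- Subrings essentially of finite type over `R` are noetherian. -/
theorem noeth_of_ess {R : Type u} [CommRing R] (hR : HJ R) {K : Type u} [Field K] (ρ : R →+* K)
    {T : Set K} (hT : T.Finite) {B : Subring K}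
    (hAB : Subring.closure ((ρ.range : Set K) ∪ T) ≤ B)
    (hBA : ∀ b ∈ B, ∃ a ∈ Subring.closure ((ρ.range : Set K) ∪ T),
      ∃ s ∈ Subring.closure ((ρ.range : Set K) ∪ T), s ≠ 0 ∧ s⁻¹ ∈ B ∧ b = a * s⁻¹) :
    IsNoetherianRing B :=
  (main hR (V := ⊤) ρ hT (B := B) (fun _ _ => ValuationSubring.mem_top _) hAB hBA
    (Or.inl ⟨0, rfl⟩)).2

lemma countable_ideal {A : Type u} [CommRing A] [IsNoetherianRing A] [Countable A] :
    Countable (Ideal A) := by
  have h : Function.Surjective (fun s : Finset A => Ideal.span (s : Set A)) := by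
    intro I
    obtain ⟨s, hs⟩ := (IsNoetherian.noetherian I : I.FG)
    exact ⟨s, hs⟩
  exact h.countable

/-- The main theorem for countable fields. -/
theorem main_log {R : Type u} [CommRing R] (hR : HJ R) {K : Type u} [Field K] [Countable K]
    (ρ : R →+* K) {T₀ : Set K} (hT₀ : T₀.Finite) {O : Subring K}
    (hAO : Subring.closure ((ρ.range : Set K) ∪ T₀) ≤ O)
    (hOA : ∀ b ∈ O, ∃ a ∈ Subring.closure ((ρ.range : Set K) ∪ T₀),
      ∃ s ∈ Subring.closure ((ρ.range : Set K) ∪ T₀), s ≠ 0 ∧ s⁻¹ ∈ O ∧ b = a * s⁻¹)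
    (hfrac : ∀ z : K, ∃ a ∈ O, ∃ b ∈ O, b ≠ 0 ∧ z = a * b⁻¹) :
    ∀ᶠ V : Zar O in residual (Zar O), ∀ (T : Finset K),
      Subring.closure ((ρ.range : Set K) ∪ T) ≤ V.1.toSubring →
      ∀ D I₀ : Ideal (Subring.closure ((ρ.range : Set K) ∪ T)), D ≠ ⊥ → I₀ ≠ ⊥ →
        ∃ I₁ : Ideal (Subring.closure ((ρ.range : Set K) ∪ T)), I₁ ≠ ⊥ ∧
          LogDesing V.1 (Subring.closure ((ρ.range : Set K) ∪ T)) D (I₀ * I₁) := by
  classical
  have hOn : IsNoetherianRing O := noeth_of_ess hR ρ hT₀ hAO hOA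
  have hρO : ρ.range ≤ O := fun a ha => hAO (Subring.subset_closure (Or.inl ha))
  rw [eventually_countable_forall]
  intro T
  have hTn : IsNoetherianRing (Subring.closure ((ρ.range : Set K) ∪ T)) :=
    noeth_of_ess hR ρ T.finite_toSet le_rfl (fun b hb => ⟨b, hb, 1, Subring.one_mem _, one_ne_zero,
      by rw [inv_one]; exact Subring.one_mem _, by rw [inv_one, mul_one]⟩)
  have hcn : Countable (Subring.closure ((ρ.range : Set K) ∪ T)) := Subtype.countable
  have hid : Countable (Ideal (Subring.closure ((ρ.range : Set K) ∪ T))) := countable_ideal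
  have key : ∀ᶠ V : Zar O in residual (Zar O),
      ∀ D I₀ : Ideal (Subring.closure ((ρ.range : Set K) ∪ T)),
      Subring.closure ((ρ.range : Set K) ∪ T) ≤ V.1.toSubring → D ≠ ⊥ → I₀ ≠ ⊥ →
        ∃ I₁ : Ideal (Subring.closure ((ρ.range : Set K) ∪ T)), I₁ ≠ ⊥ ∧
          LogDesing V.1 (Subring.closure ((ρ.range : Set K) ∪ T)) D (I₀ * I₁) := by
    rw [eventually_countable_forall]
    intro D
    rw [eventually_countable_forall]
    intro I₀
    by_cases hD : D = ⊥
    · exact Filter.Eventually.of_forall fun V _ h => absurd hD h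
    by_cases hI₀ : I₀ = ⊥
    · exact Filter.Eventually.of_forall fun V _ _ h => absurd hI₀ h
    refine residual_of _ fun X Y hne => ?_
    obtain ⟨X', Y', h1, h2⟩ := dens hR ρ hρO hfrac T rfl D I₀ hD hI₀ X Y hne
    refine ⟨X', Y', h1, fun V hV hTV _ _ => h2 V hV fun t ht => ?_⟩
    exact hTV (Subring.subset_closure (Or.inr ht))
  filter_upwards [key] with V hV h D I₀ hD hI₀
  exact hV D I₀ h hD hI₀

/-- The residue field of the generic valuation ring. -/
theorem main_alg {K : Type u} [Field K] [Countable K] {O : Subring K} [IsNoetherianRing O]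
    (hfrac : ∀ z : K, ∃ a ∈ O, ∃ b ∈ O, b ≠ 0 ∧ z = a * b⁻¹) :
    ∀ᶠ V : Zar O in residual (Zar O), ∀ x ∈ V.1,
      ∃ P : O[X], P.Monic ∧ V.1.valuation (P.eval₂ O.subtype x) < 1 := by
  rw [eventually_countable_forall]
  intro x
  exact residual_of _ fun X Y hne => dens_alg hfrac x X Y hne

/-- The value group of the generic valuation ring has rational rank at most one. -/
theorem main_rank {K : Type u} [Field K] [Countable K] {O : Subring K} [IsNoetherianRing O]
    (hfrac : ∀ z : K, ∃ a ∈ O, ∃ b ∈ O, b ≠ 0 ∧ z = a * b⁻¹) :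
    ∀ᶠ V : Zar O in residual (Zar O), ∀ x y : K, x ≠ 0 → y ≠ 0 → V.1.valuation x < 1 →
      V.1.valuation y < 1 → ∃ n m : ℕ, 0 < n ∧ 0 < m ∧ V.1.valuation (x ^ n) =
        V.1.valuation (y ^ m) := by
  rw [eventually_countable_forall]
  intro x
  rw [eventually_countable_forall]
  intro y
  by_cases hx : x = 0
  · exact Filter.Eventually.of_forall fun V h => absurd hx h
  by_cases hy : y = 0
  · exact Filter.Eventually.of_forall fun V _ h => absurd hy h
  refine residual_of _ fun X Y hne => ?_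
  obtain ⟨X', Y', h1, h2⟩ := dens_rank hfrac hx hy X Y hne
  exact ⟨X', Y', h1, fun V hV _ _ => h2 V hV⟩

/-- The value group of the generic valuation ring is not discrete. -/
theorem main_nd {K : Type u} [Field K] [Countable K] {O : Subring K} [IsNoetherianRing O]
    (hfrac : ∀ z : K, ∃ a ∈ O, ∃ b ∈ O, b ≠ 0 ∧ z = a * b⁻¹) (h2 : HeightTwo O) :
    ∀ᶠ V : Zar O in residual (Zar O), ∀ x : K, x ≠ 0 → V.1.valuation x < 1 →
      ∃ y : K, V.1.valuation x < V.1.valuation y ∧ V.1.valuation y < 1 := by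
  rw [eventually_countable_forall]
  intro x
  by_cases hx : x = 0
  · exact Filter.Eventually.of_forall fun V h => absurd hx h
  refine residual_of _ fun X Y hne => ?_
  obtain ⟨X', Y', h1, h3⟩ := dens_nd hfrac h2 hx X Y hne
  exact ⟨X', Y', h1, fun V hV _ => h3 V hV⟩

/-- There are valuation rings which dominate a given local ring. -/
theorem nonempty_zar {K : Type u} [Field K] {O : Subring K} [IsNoetherianRing O] [IsLocalRing O]
    (hfrac : ∀ z : K, ∃ a ∈ O, ∃ b ∈ O, b ≠ 0 ∧ z = a * b⁻¹) : Nonempty (Zar O) := by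
  obtain ⟨m, V, hDR, hOV, hVM, halg⟩ := exists_at_max hfrac (maximalIdeal O)
  refine ⟨⟨V, hOV, fun a ha ha0 h1 => ?_⟩⟩
  by_contra h2
  have h3 : (⟨a, ha⟩ : O) ∈ maximalIdeal O := by
    rw [mem_maximalIdeal, mem_nonunits_iff]
    intro hu
    obtain ⟨w, hw⟩ := isUnit_iff_exists_inv.1 hu
    apply h2
    have h4 : a * (w : K) = 1 := congrArg Subtype.val hw
    rw [inv_eq_of_mul_eq_one_right h4]
    exact w.2
  exact lt_iff.1 ((hVM ⟨a, ha⟩).2 h3) ⟨ha0, h1⟩

/-- The form of the hypothesis for fields. -/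
theorem heightTwo_field {k K : Type} [CommRing k] (hk : IsField k) [Field K] (ρ : k →+* K)
    {O : Subring K} [IsNoetherianRing O] {T₀ : Set K} (hT₀ : T₀.Finite)
    (hAO : Subring.closure ((ρ.range : Set K) ∪ T₀) ≤ O)
    (hOA : ∀ b ∈ O, ∃ a ∈ Subring.closure ((ρ.range : Set K) ∪ T₀),
      ∃ s ∈ Subring.closure ((ρ.range : Set K) ∪ T₀), s ≠ 0 ∧ s⁻¹ ∈ O ∧ b = a * s⁻¹)
    (hdim : (2 : WithBot ℕ∞) ≤ ringKrullDim O) : HeightTwo O := by
  letI : Field k := hk.toField
  letI : Algebra k K := ρ.toAlgebra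
  have h1 : ∀ a, a ∈ Algebra.adjoin k T₀ ↔ a ∈ Subring.closure ((ρ.range : Set K) ∪ T₀) := by
    intro a
    have h2 : (Algebra.adjoin k T₀).toSubring = Subring.closure ((ρ.range : Set K) ∪ T₀) := by
      rw [Algebra.adjoin_eq_ring_closure]
      rfl
    rw [← h2]
    rfl
  refine heightTwo_of_field (k := k) hT₀ (fun a ha => hAO ((h1 a).1 ha)) (fun b hb => ?_) hdim
  obtain ⟨a, ha, s, hs, h⟩ := hOA b hb
  exact ⟨a, (h1 a).2 ha, s, (h1 s).2 hs, h⟩

end Pool.Agent.Q40.GV
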