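import Pool.Agent.Q40.GV.Rank

set_option autoImplicit false
set_option linter.style.haveILetI false
set_option linter.unusedVariables false

universe u

namespace Pool.Agent.Q40.GV

open IsLocalRing Polynomial Pool.Agent.TH188.QS Pool.Agent.W418.LU2

variable {K : Type u} [Field K]

/-- A valuation ring centred at a maximal ideal for which a given value is not minimal. -/
theorem exists_small {C : Subring K} [IsNoetherianRing C]
    (hfrac : ∀ z : K, ∃ a ∈ C, ∃ b ∈ C, b ≠ 0 ∧ z = a * b⁻¹) (M : Ideal C) [hM : M.IsMaximal]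
    (x : C) (hx0 : x ≠ 0) (hxM : x ∈ M) (hmin : M ∉ (Ideal.span {x}).minimalPrimes) :
    ∃ V : ValuationSubring K, C ≤ V.toSubring ∧ (∀ c : C, V.valuation (c : K) < 1 ↔ c ∈ M) ∧
      ∃ y : K, y ≠ 0 ∧ V.valuation y < 1 ∧ V.valuation ((x : K) / y) < 1 := by
  classical
  obtain ⟨q, hqm, hqM⟩ := Ideal.exists_minimalPrimes_le
    ((Ideal.span_singleton_le_iff_mem _).2 hxM)
  have hq : q.IsPrime := hqm.1.1
  have hxq : x ∈ q := hqm.1.2 (Ideal.mem_span_singleton_self x)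
  have hq0 : q ≠ ⊥ := fun h => hx0 (by rw [h] at hxq; exact hxq)
  have hq1 : q.height ≤ 1 :=
    Ideal.height_le_one_of_isPrincipal_of_mem_minimalPrimes (Ideal.span {x}) q hqm
  have hqM' : q < M := lt_of_le_of_ne hqM fun h => hmin (h ▸ hqm)
  obtain ⟨y, hyM, hyq⟩ := SetLike.exists_of_lt hqM'
  have hfin : FinOver C.subtype := by
    refine ⟨1, fun _ => 1, fun z => ?_⟩
    obtain ⟨a, ha, b, hb, hb0, rfl⟩ := hfrac z
    refine ⟨⟨b, hb⟩, hb0, fun _ => ⟨a, ha⟩, ?_⟩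
    change b * (a * b⁻¹) = ∑ i : Fin 1, a * 1
    simp only [Finset.univ_unique, Finset.sum_const, Finset.card_singleton, one_smul, mul_one]
    field_simp
  obtain ⟨V₁, hle, hdvr, hlt, -⟩ := exists_dvr C.subtype Subtype.val_injective hfin q hq0 hq1
  have hCV₁ : C ≤ V₁.toSubring := fun b hb => hle ⟨b, hb⟩
  let φ : C →+* ResidueField V₁ := (residue V₁).comp
    (C.subtype.codRestrict V₁.toSubring fun c => hCV₁ c.2)
  have hφ : ∀ c : C, φ c = residue V₁ ⟨c, hCV₁ c.2⟩ := fun c => rfl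
  have hker : ∀ c : C, φ c = 0 → c ∈ q := by
    intro c hc
    rw [hφ, residue_eq_zero_iff] at hc
    exact (hlt c).1 ((V₁.valuation_lt_one_iff ⟨c, hCV₁ c.2⟩).1 hc)
  let I : Ideal φ.range := M.map φ.rangeRestrict
  have hI : I ≠ ⊤ := by
    intro h
    have h1 : (1 : φ.range) ∈ I := by rw [h]; trivial
    obtain ⟨c, hc, h2⟩ := (Ideal.mem_map_iff_of_surjective φ.rangeRestrict
      φ.rangeRestrict_surjective).1 h1
    have h3 : φ (c - 1) = 0 := by
      rw [map_sub, map_one, sub_eq_zero]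
      exact congrArg Subtype.val h2
    have h4 : (1 : C) ∈ M := by
      have h5 := M.sub_mem hc (hqM (hker _ h3))
      rwa [sub_sub_cancel] at h5
    exact hM.ne_top ((Ideal.eq_top_iff_one M).2 h4)
  obtain ⟨W, hW, hWI⟩ := Ideal.image_subset_nonunits_valuationSubring I hI
  have hWC : ∀ c : C, residue V₁ ⟨c, hCV₁ c.2⟩ ∈ W := fun c => hW ⟨c, rfl⟩
  have hWM : ∀ c ∈ M, W.valuation (residue V₁ ⟨c, hCV₁ c.2⟩) < 1 := by
    intro c hc
    have h1 : φ c ∈ W.nonunits := hWI ⟨φ.rangeRestrict c, Ideal.mem_map_of_mem _ hc, rfl⟩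
    exact (ValuationSubring.mem_nonunits_iff W).1 h1
  have hCV : C ≤ (comp V₁ W).toSubring := fun c hc => ⟨hCV₁ hc, hWC ⟨c, hc⟩⟩
  have hMV : ∀ c ∈ M, (comp V₁ W).valuation (c : K) < 1 := fun c hc =>
    comp_lt (hCV₁ c.2) (hWM c hc)
  have hyq1 : ¬ V₁.valuation (y : K) < 1 := fun h => hyq ((hlt y).1 h)
  rw [lt_iff, not_not] at hyq1
  refine ⟨comp V₁ W, hCV, fun c => ⟨fun h => ?_, hMV c⟩, y, hyq1.1, hMV y hyM, ?_⟩
  · by_contra hc
    have h1 : M ≤ cen _ C hCV := fun c hc => (mem_cen _ c).2 (hMV c hc)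
    have h2 := hM.eq_of_le (cen_prime _ C hCV).ne_top h1
    exact hc (by rw [h2, mem_cen]; exact h)
  · have h1 : V₁.valuation ((x : K) / y) < 1 := by
      rw [div_eq_inv_mul]
      exact lt_mul hyq1.2 ((hlt x).2 hxq)
    refine comp_lt (mem_of_lt h1) ?_
    rw [residue_eq_zero_of_lt (mem_of_lt h1) h1, map_zero]
    exact zero_lt_one

/-- The maximal ideals over the maximal ideal of `O`, in finitely generated extensions of `O`
inside `K`, have height at least two. -/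
def HeightTwo (O : Subring K) : Prop :=
  ∀ (T : Set K) (C : Subring K), T.Finite → C = Subring.closure ((O : Set K) ∪ T) →
    ∀ M : Ideal C, M.IsMaximal → (∀ a ∈ O, a ≠ 0 → a⁻¹ ∉ O → ∃ h : a ∈ C, (⟨a, h⟩ : C) ∈ M) →
      ∀ x ∈ M, M ∉ (Ideal.span {x}).minimalPrimes

/-- Density of the condition that a given value is not the smallest positive value. -/
theorem dens_nd {O : Subring K} [IsNoetherianRing O]
    (hfrac : ∀ z : K, ∃ a ∈ O, ∃ b ∈ O, b ≠ 0 ∧ z = a * b⁻¹) (h2 : HeightTwo O) {x : K}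
    (hx0 : x ≠ 0) (X Y : Finset K) (hne : (Bas O X Y).Nonempty) :
    ∃ X' Y' : Finset K, (Bas O X Y ∩ Bas O X' Y').Nonempty ∧ ∀ V ∈ Bas O X Y ∩ Bas O X' Y',
      V.1.valuation x < 1 →
        ∃ y : K, V.1.valuation x < V.1.valuation y ∧ V.1.valuation y < 1 := by
  classical
  rcases mem_or_of {x} X Y hne with ⟨V, hV, z, hz, h⟩ | ⟨hne', hsub, hlt⟩
  · rw [Finset.mem_singleton] at hz
    subst hz
    obtain ⟨h1, h2⟩ := exists_not_lt hx0 h
    exact ⟨{z⁻¹}, ∅, ⟨V, hV, h1⟩, fun V' hV' hx => absurd hx (h2 V' hV'.2)⟩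
  · obtain ⟨C, hOC, hCn, hCV, hXC, ⟨T, hTf, hCdef⟩, M, hM, hmM, hCM⟩ := exists_CM _ Y hne'
    have hfracC : ∀ z : K, ∃ a ∈ C, ∃ b ∈ C, b ≠ 0 ∧ z = a * b⁻¹ := by
      intro z
      obtain ⟨a, ha, b, hb, h⟩ := hfrac z
      exact ⟨a, hOC ha, b, hOC hb, h⟩
    obtain ⟨m, V₀, hDR, hCV₀, hV₀M, halg⟩ := exists_at_max hfracC M
    obtain ⟨hdom₀, hV₀B⟩ := hCM V₀ hCV₀ hV₀M
    have hxC : x ∈ C := hXC x (by simp)
    have hxM : (⟨x, hxC⟩ : C) ∈ M := (hV₀M _).1 (hlt _ (hsub hV₀B) x (by simp))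
    obtain ⟨V₁, hCV₁, hV₁M, y, hy0, hy, hxy⟩ := exists_small hfracC M ⟨x, hxC⟩
      (fun h => hx0 (congrArg Subtype.val h)) hxM (h2 T C hTf hCdef M hM hmM _ hxM)
    obtain ⟨hdom₁, hV₁B⟩ := hCM V₁ hCV₁ hV₁M
    rw [lt_iff, not_and] at hy hxy
    refine ⟨∅, {y⁻¹, (x / y)⁻¹}, ⟨⟨V₁, hdom₁⟩, hsub hV₁B, by simp, ?_⟩, ?_⟩
    · intro z hz
      rcases Finset.mem_insert.1 hz with rfl | hz
      · exact hy hy0
      · rw [Finset.mem_singleton] at hz; subst hz; exact hxy (div_ne_zero hx0 hy0)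
    · rintro V ⟨-, -, hV⟩ -
      refine ⟨y, ?_, ?_⟩
      · have h3 : V.1.valuation (x / y) < 1 := by
          rw [lt_iff]
          rintro ⟨-, h3⟩
          exact hV _ (by simp) h3
        rw [map_div₀] at h3
        exact (div_lt_one₀ (zero_lt_iff.2 ((_root_.map_ne_zero _).2 hy0))).1 h3
      · rw [lt_iff]
        rintro ⟨-, h3⟩
        exact hV _ (by simp) h3

end Pool.Agent.Q40.GV
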