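import Pool.Agent.Q40.GV.Alg

set_option autoImplicit false
set_option linter.style.haveILetI false
set_option linter.unusedVariables false

universe u

namespace Pool.Agent.Q40.GV

open IsLocalRing Polynomial Pool.Agent.TH188.QS Pool.Agent.W418.LU2

variable {K : Type u} [Field K]

/-- A discrete valuation ring centred at a nonzero maximal ideal. -/
theorem exists_dvr_at_max {C : Subring K} [IsNoetherianRing C]
    (hfrac : ∀ z : K, ∃ a ∈ C, ∃ b ∈ C, b ≠ 0 ∧ z = a * b⁻¹) (M : Ideal C) [hM : M.IsMaximal]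
    (hM0 : M ≠ ⊥) :
    ∃ V : ValuationSubring K, IsDiscreteValuationRing V ∧ C ≤ V.toSubring ∧
      ∀ c : C, V.valuation (c : K) < 1 ↔ c ∈ M := by
  classical
  obtain ⟨m, V₀, hDR, hCV₀, hV₀M, halg⟩ := exists_at_max hfrac M
  obtain ⟨S, hS⟩ := (IsNoetherian.noetherian M : M.FG)
  have hS : Ideal.span (S : Set C) = M := hS
  obtain ⟨f, hfS, hf0, hfV⟩ := exists_gen V₀ hCV₀ S.finite_toSet (by rw [hS]; exact hM0)
  rw [hS] at hfV
  have hf0' : (f : K) ≠ 0 := fun h => hf0 (Subtype.ext h)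
  let T : Set K := (fun a : C => (a : K) / (f : K)) '' (S : Set C)
  let B := Subring.closure ((C : Set K) ∪ T)
  have hTf : T.Finite := S.finite_toSet.image _
  have hBn : IsNoetherianRing B := noeth_cl hTf
  have hCB : C ≤ B := fun a ha => Subring.subset_closure (Or.inl ha)
  have hBV₀ : B ≤ V₀.toSubring := by
    refine cl_le hCV₀ ?_
    rintro t ⟨a, ha, rfl⟩
    exact hfV a (by rw [← hS]; exact Ideal.subset_span ha)
  have hMf : ∀ a ∈ M, (a : K) / (f : K) ∈ B := by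
    intro a ha
    rw [← hS] at ha
    induction ha using Submodule.span_induction with
    | mem x hx => exact Subring.subset_closure (Or.inr ⟨x, hx, rfl⟩)
    | zero =>
      change ((0 : C) : K) / (f : K) ∈ B
      rw [Subring.coe_zero, zero_div]
      exact B.zero_mem
    | add x y _ _ hx hy =>
      change ((x + y : C) : K) / (f : K) ∈ B
      rw [Subring.coe_add, add_div]
      exact B.add_mem hx hy
    | smul r x _ hx =>
      change ((r * x : C) : K) / (f : K) ∈ B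
      rw [Subring.coe_mul, mul_div_assoc]
      exact B.mul_mem (hCB r.2) hx
  let g : B := ⟨f, hCB f.2⟩
  have hgc : g ∈ cen V₀ B hBV₀ := by
    rw [mem_cen]
    exact (hV₀M f).2 (by rw [← hS]; exact Ideal.subset_span hfS)
  have hprime := cen_prime V₀ B hBV₀
  obtain ⟨q, hqm, hqle⟩ := Ideal.exists_minimalPrimes_le
    ((Ideal.span_singleton_le_iff_mem _).2 hgc)
  have hq : q.IsPrime := hqm.1.1
  have hgq : g ∈ q := hqm.1.2 (Ideal.mem_span_singleton_self g)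
  have hg0 : g ≠ 0 := fun h => hf0' (congrArg Subtype.val h)
  have hq0 : q ≠ ⊥ := fun h => hg0 (by rw [h] at hgq; exact hgq)
  have hq1 : q.height ≤ 1 :=
    Ideal.height_le_one_of_isPrincipal_of_mem_minimalPrimes (Ideal.span {g}) q hqm
  have hfin : FinOver B.subtype := by
    refine ⟨1, fun _ => 1, fun z => ?_⟩
    obtain ⟨a, ha, b, hb, hb0, rfl⟩ := hfrac z
    refine ⟨⟨b, hCB hb⟩, hb0, fun _ => ⟨a, hCB ha⟩, ?_⟩
    change b * (a * b⁻¹) = ∑ i : Fin 1, a * 1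
    simp only [Finset.univ_unique, Finset.sum_const, Finset.card_singleton, one_smul, mul_one]
    field_simp
  obtain ⟨V₁, hle, hdvr, hlt, -⟩ := exists_dvr B.subtype Subtype.val_injective hfin q hq0 hq1
  have hBV₁ : B ≤ V₁.toSubring := fun b hb => hle ⟨b, hb⟩
  have hM1 : ∀ c ∈ M, V₁.valuation (c : K) < 1 := by
    intro c hc
    have h1 : (⟨c, hCB c.2⟩ : B) = ⟨(c : K) / f, hMf c hc⟩ * g :=
      Subtype.ext (div_mul_cancel₀ (c : K) hf0').symm
    have h2 : (⟨c, hCB c.2⟩ : B) ∈ q := by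
      rw [h1]; exact Ideal.mul_mem_left _ _ hgq
    exact (hlt _).2 h2
  refine ⟨V₁, hdvr, hCB.trans hBV₁, fun c => ⟨fun h => ?_, hM1 c⟩⟩
  by_contra hc
  have h1 : M ≤ cen V₁ C (hCB.trans hBV₁) := fun c hc => (mem_cen _ c).2 (hM1 c hc)
  have h2 := hM.eq_of_le (cen_prime V₁ C (hCB.trans hBV₁)).ne_top h1
  exact hc (by rw [h2, mem_cen]; exact h)

/-- In a discrete valuation ring, suitable powers of two nonunits have the same value. -/
theorem commensurable {V : ValuationSubring K} [IsDiscreteValuationRing V] {x y : K} (hx0 : x ≠ 0)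
    (hy0 : y ≠ 0) (hx : V.valuation x < 1) (hy : V.valuation y < 1) :
    ∃ n m : ℕ, 0 < n ∧ 0 < m ∧ x ^ n / y ^ m ∈ V ∧ (x ^ n / y ^ m)⁻¹ ∈ V := by
  obtain ⟨ϖ, hϖ⟩ := IsDiscreteValuationRing.exists_irreducible V
  have key : ∀ z : K, z ≠ 0 → V.valuation z < 1 → ∃ (a : ℕ) (u : Vˣ), 0 < a ∧
      z = (ϖ : K) ^ a * ((u : V) : K) := by
    intro z hz0 hz
    have hzV : z ∈ V := mem_of_lt hz
    obtain ⟨a, ha⟩ := IsDiscreteValuationRing.associated_pow_irreducible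
      (x := (⟨z, hzV⟩ : V)) (fun h => hz0 (congrArg Subtype.val h)) hϖ
    obtain ⟨u, hu⟩ := ha.symm
    refine ⟨a, u, ?_, (congrArg Subtype.val hu).symm⟩
    rcases Nat.eq_zero_or_pos a with rfl | h
    · exfalso
      rw [pow_zero, one_mul] at hu
      have h1 : IsUnit (⟨z, hzV⟩ : V) := by rw [← hu]; exact u.isUnit
      have h2 := (V.valuation_lt_one_iff ⟨z, hzV⟩).2 hz
      exact h2 h1
    · exact h
  obtain ⟨a, u, ha, hxu⟩ := key x hx0 hx
  obtain ⟨b, v, hb, hyv⟩ := key y hy0 hy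
  have hϖ0 : (ϖ : K) ≠ 0 := fun h => hϖ.ne_zero (Subtype.ext h)
  have hcoe : ∀ w : Vˣ, ((w : V) : K) ≠ 0 := fun w h => w.ne_zero (Subtype.ext h)
  have hinv : ∀ w : Vˣ, ((w : V) : K)⁻¹ = ((w⁻¹ : Vˣ) : V) := by
    intro w
    apply inv_eq_of_mul_eq_one_right
    have h1 : (w : V) * ((w⁻¹ : Vˣ) : V) = 1 := w.mul_inv
    exact congrArg Subtype.val h1
  have h3 : x ^ b / y ^ a = ((u : V) : K) ^ b * (((v⁻¹ : Vˣ) : V) : K) ^ a := by
    rw [hxu, hyv, ← hinv, mul_pow, mul_pow, ← pow_mul, ← pow_mul, mul_comm b a, inv_pow,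
      mul_div_mul_left _ _ (pow_ne_zero _ hϖ0), div_eq_mul_inv]
  refine ⟨b, a, hb, ha, ?_, ?_⟩
  · rw [h3]
    exact V.mul_mem _ _ (V.toSubring.pow_mem (u : V).2 _) (V.toSubring.pow_mem (v⁻¹ : Vˣ).1.2 _)
  · rw [h3, mul_inv, ← inv_pow, ← inv_pow, hinv, hinv, inv_inv]
    exact V.mul_mem _ _ (V.toSubring.pow_mem (u⁻¹ : Vˣ).1.2 _) (V.toSubring.pow_mem (v : V).2 _)

/-- Adding elements which are contained in all rings of a basic open set. -/
lemma mem_or_of [DecidableEq K] {O : Subring K} (Z : Finset K) (X Y : Finset K) (hne : (Bas O X Y).Nonempty) :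
    (∃ V ∈ Bas O X Y, ∃ z ∈ Z, V.1.valuation z = 1 ∨ z ∉ V.1) ∨
      ((Bas O (X ∪ Z) Y).Nonempty ∧ Bas O (X ∪ Z) Y ⊆ Bas O X Y ∧
        ∀ V ∈ Bas O X Y, ∀ z ∈ Z, V.1.valuation z < 1) := by
  classical
  by_cases h : ∃ V ∈ Bas O X Y, ∃ z ∈ Z, V.1.valuation z = 1 ∨ z ∉ V.1
  · exact Or.inl h
  · push Not at h
    have h1 : ∀ V ∈ Bas O X Y, ∀ z ∈ Z, V.1.valuation z < 1 := fun V hV z hz =>
      lt_of_le_of_ne ((V.1.valuation_le_one_iff z).2 (h V hV z hz).2) (h V hV z hz).1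
    refine Or.inr ⟨?_, ?_, h1⟩
    · obtain ⟨V, hV⟩ := hne
      refine ⟨V, fun x hx => ?_, hV.2⟩
      rcases Finset.mem_union.1 hx with hx | hx
      · exact hV.1 x hx
      · exact (h V hV x hx).2
    · exact fun V hV => ⟨fun x hx => hV.1 x (Finset.mem_union_left _ hx), hV.2⟩

/-- The open set where an element is not in the maximal ideal. -/
lemma exists_not_lt {O : Subring K} {V : Zar O} {z : K} (hz0 : z ≠ 0)
    (h : V.1.valuation z = 1 ∨ z ∉ V.1) :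
    V ∈ Bas O {z⁻¹} ∅ ∧ ∀ V' ∈ Bas O {z⁻¹} ∅, ¬ V'.1.valuation z < 1 := by
  constructor
  · refine ⟨?_, by simp⟩
    intro x hx
    rw [Finset.mem_singleton] at hx
    subst hx
    rcases h with h | h
    · rw [← V.1.valuation_le_one_iff, map_inv₀, h, inv_one]
    · exact (V.1.mem_or_inv_mem z).resolve_left h
  · rintro V' ⟨h1, -⟩ h2
    exact lt_iff.1 h2 ⟨hz0, h1 _ (Finset.mem_singleton_self _)⟩

/-- Density of the condition that two elements have commensurable values. -/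
theorem dens_rank {O : Subring K} [IsNoetherianRing O]
    (hfrac : ∀ z : K, ∃ a ∈ O, ∃ b ∈ O, b ≠ 0 ∧ z = a * b⁻¹) {x y : K} (hx0 : x ≠ 0)
    (hy0 : y ≠ 0) (X Y : Finset K) (hne : (Bas O X Y).Nonempty) :
    ∃ X' Y' : Finset K, (Bas O X Y ∩ Bas O X' Y').Nonempty ∧ ∀ V ∈ Bas O X Y ∩ Bas O X' Y',
      V.1.valuation x < 1 → V.1.valuation y < 1 →
        ∃ n m : ℕ, 0 < n ∧ 0 < m ∧ V.1.valuation (x ^ n) = V.1.valuation (y ^ m) := by
  classical
  rcases mem_or_of {x, y} X Y hne with ⟨V, hV, z, hz, h⟩ | ⟨hne', hsub, hlt⟩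
  · have hz0 : z ≠ 0 := by
      rcases Finset.mem_insert.1 hz with rfl | hz
      · exact hx0
      · rw [Finset.mem_singleton] at hz; subst hz; exact hy0
    obtain ⟨h1, h2⟩ := exists_not_lt hz0 h
    refine ⟨{z⁻¹}, ∅, ⟨V, hV, h1⟩, fun V' hV' hx hy => ?_⟩
    exfalso
    rcases Finset.mem_insert.1 hz with rfl | hz
    · exact h2 V' hV'.2 hx
    · rw [Finset.mem_singleton] at hz; subst hz; exact h2 V' hV'.2 hy
  · obtain ⟨C, hOC, hCn, hCV, hXC, -, M, hM, -, hCM⟩ := exists_CM _ Y hne'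
    have hfracC : ∀ z : K, ∃ a ∈ C, ∃ b ∈ C, b ≠ 0 ∧ z = a * b⁻¹ := by
      intro z
      obtain ⟨a, ha, b, hb, h⟩ := hfrac z
      exact ⟨a, hOC ha, b, hOC hb, h⟩
    obtain ⟨m, V₀, hDR, hCV₀, hV₀M, halg⟩ := exists_at_max hfracC M
    obtain ⟨hdom₀, hV₀B⟩ := hCM V₀ hCV₀ hV₀M
    have hxC : x ∈ C := hXC x (by simp)
    have hxM : (⟨x, hxC⟩ : C) ∈ M := (hV₀M _).1 (hlt _ (hsub hV₀B) x (by simp))
    obtain ⟨V₁, hdvr, hCV₁, hV₁M⟩ := exists_dvr_at_max hfracC M (fun h => by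
      rw [h, Ideal.mem_bot] at hxM
      exact hx0 (congrArg Subtype.val hxM))
    obtain ⟨hdom₁, hV₁B⟩ := hCM V₁ hCV₁ hV₁M
    obtain ⟨n, k, hn, hk, h1, h2⟩ := commensurable (V := V₁) hx0 hy0
      (hlt _ (hsub hV₁B) x (by simp)) (hlt _ (hsub hV₁B) y (by simp))
    refine ⟨{x ^ n / y ^ k, (x ^ n / y ^ k)⁻¹}, ∅, ⟨⟨V₁, hdom₁⟩, hsub hV₁B, ?_, by simp⟩, ?_⟩
    · intro z hz
      rcases Finset.mem_insert.1 hz with rfl | hz
      · exact h1
      · rw [Finset.mem_singleton] at hz; subst hz; exact h2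
    · rintro V ⟨-, hV, -⟩ - -
      refine ⟨n, k, hn, hk, ?_⟩
      have h3 := hV (x ^ n / y ^ k) (by simp)
      have h4 := hV (x ^ n / y ^ k)⁻¹ (by simp)
      rw [← V.1.valuation_le_one_iff, map_div₀] at h3
      rw [inv_div, ← V.1.valuation_le_one_iff, map_div₀] at h4
      have h5 : 0 < V.1.valuation (x ^ n) := zero_lt_iff.2 ((_root_.map_ne_zero _).2 (pow_ne_zero _ hx0))
      have h6 : 0 < V.1.valuation (y ^ k) := zero_lt_iff.2 ((_root_.map_ne_zero _).2 (pow_ne_zero _ hy0))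
      exact le_antisymm ((div_le_one₀ h6).1 h3) ((div_le_one₀ h5).1 h4)

end Pool.Agent.Q40.GV
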